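import Mathlib
import Pool.Agent.Run7.h854.PO.Gen

set_option autoImplicit false

/-!
# The Laplace functional of the exponents, given the first digits
-/

namespace Run7.h854.PQ

open Finset Filter Topology
open Pool.Agent.H305R2 (roughPart log_nat_tendsto)
open Pool.Agent.N176.OW (cell kap S_FM)
open Pool.Agent.N176.GP (sum_cells sum_div)
open Pool.Agent.N176.SH
open Run7.h854.PO

/-- the mean of a function of the first digits -/
lemma Av_level {b m a1 a2 s t : ℕ} (hb : 2 ≤ b) (hms : m ≤ s) (hst : s ≤ t) (h12 : a1 ≤ a2)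
    (f : ℕ → ℝ) : Av b m a1 a2 t (fun n => f (n / b ^ (t - s))) = Av b m a1 a2 s f := by
  unfold Av
  have hb0 : (0 : ℝ) < b := by positivity
  have e : b ^ (t - m) = b ^ (s - m) * b ^ (t - s) := by rw [← pow_add]; congr 1; omega
  rw [e, ← mul_assoc, ← mul_assoc, sum_div _ _ _ (by positivity) (Nat.mul_le_mul_right _ h12)]
  have e2 : (b : ℝ) ^ t = (b : ℝ) ^ (t - s) * (b : ℝ) ^ s := by rw [← pow_add]; congr 1; omega
  rw [e2]
  push_cast
  rw [mul_div_mul_left _ _ (by positivity)]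

/-- the mean as a sum over the cells of level `z` -/
lemma Av_split {b m a1 a2 z t : ℕ} (hmz : m ≤ z) (hzt : z ≤ t) (h12 : a1 ≤ a2) (f : ℕ → ℝ) :
    Av b m a1 a2 t f = ∑ i ∈ Ico (a1 * b ^ (z - m)) (a2 * b ^ (z - m)), Av b z i (i + 1) t f := by
  rw [Av_cells hmz hzt h12, Finset.sum_div]
  rfl

/-- the difference of the density of an exponent in the cells of level `⌊κ0 q⌋` from its mean -/
noncomputable def EE (c : ℕ → ℤ) (b : ℕ) (κ0 : ℝ) (z i q : ℕ) : ℝ :=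
  (∑ j ∈ Ico (i * b ^ (⌊κ0 * q⌋₊ - z)) ((i + 1) * b ^ (⌊κ0 * q⌋₊ - z)),
    |(cnt c b ⌊κ0 * q⌋₊ j q : ℝ) / (b : ℝ) ^ (q - ⌊κ0 * q⌋₊) - kap b * (Real.log q / q)|) /
    (b : ℝ) ^ ⌊κ0 * q⌋₊

lemma EE_nonneg (c : ℕ → ℤ) (b : ℕ) (κ0 : ℝ) (z i q : ℕ) : 0 ≤ EE c b κ0 z i q := by
  unfold EE
  positivity

/-- the exponent `q` given the first digits -/
lemma cellFM {b : ℕ} (hb : 2 ≤ b) (c : ℕ → ℤ) {κ0 : ℝ} (hκ0 : 0 < κ0) (hκ1 : κ0 < 1 / 2)
    {q z i t : ℕ} (hzq : (z : ℝ) ≤ κ0 * q) (hqt : q ≤ t) {T0 : Finset ℕ}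
    (hT0 : ∀ p ∈ T0, p ≤ ⌊κ0 * q⌋₊) {w : ℕ → ℝ} (hw : ∀ p, 0 ≤ w p ∧ w p ≤ 1) :
    |Av b z i (i + 1) t (fun n => Y c q (n / b ^ (t - q)) * Phi c w T0 b t n) -
      kap b * (Real.log q / q) * Av b z i (i + 1) t (fun n => Phi c w T0 b t n)| ≤
      EE c b κ0 z i q := by
  have hb0 : (0 : ℝ) < b := by positivity
  set y := ⌊κ0 * q⌋₊ with hy
  have hzy : z ≤ y := Nat.le_floor hzq
  have hy1 : (y : ℝ) ≤ κ0 * q := Nat.floor_le (by positivity)
  have hyq : y ≤ q := by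
    have : (y : ℝ) ≤ q := hy1.trans (by nlinarith [(Nat.cast_nonneg q : (0 : ℝ) ≤ q)])
    exact_mod_cast this
  have hyt : y ≤ t := hyq.trans hqt
  have hPhi : ∀ j, ∀ n ∈ cell b y t j, Phi c w T0 b t n = Phi c w T0 b y j := by
    intro j n hn
    unfold cell at hn
    rw [mem_Ico] at hn
    unfold Phi
    refine Finset.prod_congr rfl fun p hp => ?_
    have h2 : n / b ^ (t - y) = j := Nat.div_eq_of_lt_le hn.1 hn.2
    rw [div_div (hT0 p hp) hyt, h2]
  have hPhi0 : ∀ j, 0 ≤ Phi c w T0 b y j ∧ Phi c w T0 b y j ≤ 1 := fun j => Phi_mem hw T0 b y j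
  have hcellcard : ∀ j, (((cell b y t j).card : ℕ) : ℝ) = (b : ℝ) ^ (t - y) := by
    intro j
    unfold cell
    rw [Nat.card_Ico, ← Nat.sub_mul, Nat.add_sub_cancel_left, one_mul]
    push_cast
    rfl
  set κ' := kap b * (Real.log q / q) with hκ'
  have hbt : (b : ℝ) ^ (t - y) = (b : ℝ) ^ (t - q) * (b : ℝ) ^ (q - y) := by
    rw [← pow_add]; congr 1; omega
  have e1 : Av b z i (i + 1) t (fun n => Y c q (n / b ^ (t - q)) * Phi c w T0 b t n) -
      κ' * Av b z i (i + 1) t (fun n => Phi c w T0 b t n) =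
      (b : ℝ) ^ (t - y) / (b : ℝ) ^ t * ∑ j ∈ Ico (i * b ^ (y - z)) ((i + 1) * b ^ (y - z)),
        Phi c w T0 b y j * ((cnt c b y j q : ℝ) / (b : ℝ) ^ (q - y) - κ') := by
    rw [Av_cells hzy hyt (Nat.le_succ i), Av_cells hzy hyt (Nat.le_succ i),
      ← mul_div_assoc, ← sub_div, div_mul_eq_mul_div, Finset.mul_sum, Finset.mul_sum,
      ← Finset.sum_sub_distrib]
    congr 1
    refine Finset.sum_congr rfl fun j _ => ?_
    have h2 : ∑ n ∈ cell b y t j, Y c q (n / b ^ (t - q)) * Phi c w T0 b t n =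
        (b : ℝ) ^ (t - q) * (cnt c b y j q : ℝ) * Phi c w T0 b y j := by
      rw [cnt_eq_sum, ← sum_level hb hyq hqt, Finset.sum_mul]
      exact Finset.sum_congr rfl fun n hn => by rw [hPhi j n hn]
    have h3 : ∑ n ∈ cell b y t j, Phi c w T0 b t n = (b : ℝ) ^ (t - y) * Phi c w T0 b y j := by
      rw [Finset.sum_congr rfl (hPhi j), Finset.sum_const, nsmul_eq_mul, hcellcard]
    rw [h2, h3, hbt]
    have h4 : (b : ℝ) ^ (q - y) ≠ 0 := by positivity
    field_simp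
  rw [e1, abs_mul, abs_of_nonneg (show (0 : ℝ) ≤ (b : ℝ) ^ (t - y) / (b : ℝ) ^ t by positivity)]
  have h5 : (b : ℝ) ^ (t - y) / (b : ℝ) ^ t = 1 / (b : ℝ) ^ y := by
    rw [div_eq_div_iff (by positivity) (by positivity), ← pow_add, one_mul]
    congr 1
    omega
  rw [h5]
  unfold EE
  rw [← hy, one_div, div_eq_inv_mul]
  refine mul_le_mul_of_nonneg_left ?_ (by positivity)
  refine (Finset.abs_sum_le_sum_abs _ _).trans (Finset.sum_le_sum fun j _ => ?_)
  rw [abs_mul, abs_of_nonneg (hPhi0 j).1]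
  exact mul_le_of_le_one_left (abs_nonneg _) (hPhi0 j).2

/-- one more exponent -/
theorem cell_step (hTU : S_TU) (hRB : S_RB) {b A : ℕ} {c : ℕ → ℤ} (hOk : Ok b A c)
    {κ0 : ℝ} (hκ0 : 0 < κ0) (hκ1 : κ0 < 1 / 2) : ∃ C : ℝ, 0 < C ∧
    ∃ P : ℕ, ∀ q ≥ P, ∀ z : ℕ, (z : ℝ) ≤ κ0 * q → ∀ i : ℕ, 1 ≤ i → i ≤ b ^ (2 * z) → ∀ t > q,
    ∀ T : Finset ℕ, (∀ p ∈ T, P ≤ p ∧ 2 * A * z ≤ p ∧ p < q) →
    ∀ w : ℕ → ℝ, (∀ p, 0 ≤ w p ∧ w p ≤ 1) →
    |Av b z i (i + 1) t (fun n => Phi c w (insert q T) b t n) -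
      (1 - w q * (kap b * (Real.log q / q))) * Av b z i (i + 1) t (fun n => Phi c w T b t n)| ≤
      EE c b κ0 z i q + 1 / (b : ℝ) ^ z * (C * ∑ p ∈ T.filter (fun p : ℕ => κ0 * q < p), WW2 b p q) := by
  classical
  have hb := hOk.hb
  have hb0 : (0 : ℝ) < b := by positivity
  have hA64 := hOk.hA
  obtain ⟨C2, hC2, P2, hP2⟩ := pair_all hTU hRB hOk
  obtain ⟨C3, hC3, P3, hP3⟩ := cnt_up hb c
  have hκb := kap_nonneg b
  refine ⟨C2 + kap b * C3, by positivity, max P2 P3, ?_⟩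
  intro q hq z hzq i hi1 hi2 t ht T hT w hw
  have hqP2 : P2 ≤ q := (le_max_left _ _).trans hq
  have hqP3 : P3 ≤ q := (le_max_right _ _).trans hq
  set y := ⌊κ0 * q⌋₊ with hy
  have hzq' : z ≤ q := by
    have : (z : ℝ) ≤ q := hzq.trans (by nlinarith [(Nat.cast_nonneg q : (0 : ℝ) ≤ q)])
    exact_mod_cast this
  set T0 := T.filter (fun p => p ≤ y) with hT0
  have hsub : T0 ⊆ T := filter_subset _ _
  have hdiff : T \ T0 = T.filter (fun p : ℕ => κ0 * q < p) := by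
    ext p
    rw [Finset.mem_sdiff, hT0, Finset.mem_filter, Finset.mem_filter, hy]
    constructor
    · rintro ⟨h2, h3⟩
      refine ⟨h2, ?_⟩
      by_contra h4
      push Not at h4
      exact h3 ⟨h2, Nat.le_floor h4⟩
    · rintro ⟨h2, h3⟩
      refine ⟨h2, fun h4 => ?_⟩
      have h5 := (Nat.le_floor_iff (by positivity)).1 h4.2
      linarith
  have hqT : q ∉ T := fun hqT => by
    have := (hT q hqT).2.2
    omega
  have hbz : (0 : ℝ) < 1 / (b : ℝ) ^ z := by positivity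
  have hscale : ∀ X : ℝ, X * (b : ℝ) ^ (t - z) / (b : ℝ) ^ t = 1 / (b : ℝ) ^ z * X := by
    intro X
    have : (b : ℝ) ^ t = (b : ℝ) ^ (t - z) * (b : ℝ) ^ z := by rw [← pow_add]; congr 1; omega
    rw [this]
    field_simp
  set S := ∑ p ∈ T.filter (fun p : ℕ => κ0 * q < p), WW2 b p q with hS
  have hS0 : 0 ≤ S := Finset.sum_nonneg fun p _ => WW2_nonneg b p q
  set X1 := Av b z i (i + 1) t (fun n => Y c q (n / b ^ (t - q)) * Phi c w T b t n) with hX1
  set X0 := Av b z i (i + 1) t (fun n => Y c q (n / b ^ (t - q)) * Phi c w T0 b t n) with hX0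
  set A1 := Av b z i (i + 1) t (fun n => Phi c w T b t n) with hA1
  set A0 := Av b z i (i + 1) t (fun n => Phi c w T0 b t n) with hA0
  set κ' := kap b * (Real.log q / q) with hκ'
  have hκ'0 : 0 ≤ κ' := mul_nonneg hκb (lg_nonneg q)
  have e1 : Av b z i (i + 1) t (fun n => Phi c w (insert q T) b t n) = A1 - w q * X1 := by
    rw [hA1, hX1, ← Av_mul, ← Av_sub]
    congr 1
    funext n
    unfold Phi
    rw [Finset.prod_insert hqT]
    ring
  have h2 : |X1 - X0| ≤ 1 / (b : ℝ) ^ z * (C2 * S) := by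
    rw [hX1, hX0, ← Av_sub]
    refine (Av_abs _).trans ?_
    have h3 : Av b z i (i + 1) t (fun n => |Y c q (n / b ^ (t - q)) * Phi c w T b t n -
        Y c q (n / b ^ (t - q)) * Phi c w T0 b t n|) ≤
        Av b z i (i + 1) t
          (fun n => ∑ p ∈ T \ T0, Y c p (n / b ^ (t - p)) * Y c q (n / b ^ (t - q))) := by
      refine Av_mono fun n => ?_
      rw [← mul_sub, abs_mul, abs_of_nonneg (Y_nonneg _ _ _), ← Finset.sum_mul, mul_comm]
      exact mul_le_mul_of_nonneg_right (Phi_diff hw hsub b t n) (Y_nonneg _ _ _)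
    refine h3.trans ?_
    rw [Av_sum, hS, Finset.mul_sum, Finset.mul_sum, ← hdiff]
    refine Finset.sum_le_sum fun p hp => ?_
    obtain ⟨h4, h5, h6⟩ := hT p (Finset.mem_sdiff.1 hp).1
    have h7 := hP2 p ((le_max_left _ _).trans h4) q h6 z h5 i hi1 hi2 t ht
    rw [← hscale]
    unfold Av
    exact div_le_div_of_nonneg_right h7 (by positivity)
  have h3 : |X0 - κ' * A0| ≤ EE c b κ0 z i q :=
    cellFM hb c hκ0 hκ1 hzq ht.le (fun p hp => (mem_filter.1 hp).2) hw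
  have h4 : κ' * |A1 - A0| ≤ 1 / (b : ℝ) ^ z * (kap b * C3 * S) := by
    have h5 : |A1 - A0| ≤ ∑ p ∈ T \ T0, 1 / (b : ℝ) ^ z * (C3 * (Real.log p / p)) := by
      rw [hA1, hA0, ← Av_sub]
      refine (Av_abs _).trans ?_
      refine (Av_mono (fun n => Phi_diff hw hsub b t n)).trans ?_
      rw [Av_sum]
      refine Finset.sum_le_sum fun p hp => ?_
      obtain ⟨h4, h5, h6⟩ := hT p (Finset.mem_sdiff.1 hp).1
      have hzp : z ≤ p := by nlinarith
      have h7 : 3 * z ≤ 2 * p := by nlinarith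
      rw [← hscale]
      unfold Av
      refine div_le_div_of_nonneg_right ?_ (by positivity)
      have h8 := sum_level hb hzp (show p ≤ t by omega) (Y c p) (j := i)
      unfold cell at h8
      rw [h8, ← cnt_eq_sum]
      calc (b : ℝ) ^ (t - p) * (cnt c b z i p : ℝ) ≤
          (b : ℝ) ^ (t - p) * (C3 * (Real.log p / p) * (b : ℝ) ^ (p - z)) :=
            mul_le_mul_of_nonneg_left (hP3 p ((le_max_right _ _).trans h4) z h7 i) (by positivity)
        _ = C3 * (Real.log p / p) * ((b : ℝ) ^ (t - p) * (b : ℝ) ^ (p - z)) := by ring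
        _ = _ := by
            rw [← pow_add]
            congr 2
            omega
    calc κ' * |A1 - A0| ≤ κ' * ∑ p ∈ T \ T0, 1 / (b : ℝ) ^ z * (C3 * (Real.log p / p)) :=
          mul_le_mul_of_nonneg_left h5 hκ'0
      _ = ∑ p ∈ T \ T0, 1 / (b : ℝ) ^ z * (kap b * C3 * (Real.log p / p * (Real.log q / q))) := by
          rw [Finset.mul_sum]
          refine Finset.sum_congr rfl fun p _ => ?_
          rw [hκ']
          ring
      _ ≤ ∑ p ∈ T \ T0, 1 / (b : ℝ) ^ z * (kap b * C3 * WW2 b p q) := by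
          refine Finset.sum_le_sum fun p _ => ?_
          refine mul_le_mul_of_nonneg_left (mul_le_mul_of_nonneg_left ?_ (by positivity)) hbz.le
          unfold WW2
          have := lg_nonneg p
          have : 0 ≤ Real.log p / p / (b : ℝ) ^ (q - p) := by positivity
          linarith
      _ = 1 / (b : ℝ) ^ z * (kap b * C3 * S) := by rw [hS, ← hdiff, Finset.mul_sum, Finset.mul_sum]
  have h5 : |X1 - κ' * A1| ≤ EE c b κ0 z i q + 1 / (b : ℝ) ^ z * ((C2 + kap b * C3) * S) := by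
    have h6 : |X1 - κ' * A1| ≤ |X1 - X0| + |X0 - κ' * A0| + κ' * |A1 - A0| := by
      have e2 : X1 - κ' * A1 = (X1 - X0) + (X0 - κ' * A0) + κ' * (A0 - A1) := by ring
      rw [e2]
      refine (abs_add_three _ _ _).trans ?_
      rw [abs_mul, abs_of_nonneg hκ'0, abs_sub_comm A0 A1]
    have e3 : 1 / (b : ℝ) ^ z * ((C2 + kap b * C3) * S) =
      1 / (b : ℝ) ^ z * (C2 * S) + 1 / (b : ℝ) ^ z * (kap b * C3 * S) := by ring
    rw [e3]
    linarith
  rw [e1]
  have e3 : A1 - w q * X1 - (1 - w q * κ') * A1 = -(w q * (X1 - κ' * A1)) := by ring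
  rw [e3, abs_neg, abs_mul, abs_of_nonneg (hw q).1]
  exact (mul_le_of_le_one_left (abs_nonneg _) (hw q).2).trans h5

/-- the Laplace functional of the exponents in `T`, given the first `z` digits -/
theorem cell_laplace (hTU : S_TU) (hRB : S_RB) {b A : ℕ} {c : ℕ → ℤ} (hOk : Ok b A c)
    {κ0 : ℝ} (hκ0 : 0 < κ0) (hκ1 : κ0 < 1 / 2) : ∃ C : ℝ, 0 < C ∧
    ∃ P : ℕ, ∀ z i t : ℕ, 1 ≤ i → i ≤ b ^ (2 * z) → z ≤ t → ∀ T : Finset ℕ,
    (∀ p ∈ T, P ≤ p ∧ 2 * A * z ≤ p ∧ (z : ℝ) ≤ κ0 * p ∧ p < t) →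
    ∀ w : ℕ → ℝ, (∀ p, 0 ≤ w p ∧ w p ≤ 1) →
    |Av b z i (i + 1) t (fun n => Phi c w T b t n) -
      1 / (b : ℝ) ^ z * Real.exp (-(∑ q ∈ T, w q * (kap b * (Real.log q / q))))| ≤
      ∑ q ∈ T, EE c b κ0 z i q + 1 / (b : ℝ) ^ z * (C * err b κ0 T) := by
  classical
  have hb := hOk.hb
  have hb0 : (0 : ℝ) < b := by positivity
  obtain ⟨C1, hC1, P1, hP1⟩ := cell_step hTU hRB hOk hκ0 hκ1
  have hκb := kap_nonneg b
  have hlim : Tendsto (fun q : ℕ => (Real.log q) ^ 2 / q) atTop (𝓝 0) := by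
    have h1 := (Real.isLittleO_pow_log_id_atTop (n := 2)).tendsto_div_nhds_zero
    have h2 := h1.comp tendsto_natCast_atTop_atTop
    exact h2
  have hlim2 : Tendsto (fun q : ℕ => kap b * (Real.log q / q)) atTop (𝓝 0) := by
    have h1 := (Real.isLittleO_pow_log_id_atTop (n := 1)).tendsto_div_nhds_zero
    have h2 := (h1.comp tendsto_natCast_atTop_atTop).const_mul (kap b)
    rw [mul_zero] at h2
    refine h2.congr fun q => ?_
    simp
  obtain ⟨P2, hP2⟩ := eventually_atTop.1 (hlim.eventually_le_const (show (0 : ℝ) < 1 by norm_num))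
  obtain ⟨P3, hP3⟩ := eventually_atTop.1 (hlim2.eventually_le_const (show (0 : ℝ) < 1 by norm_num))
  refine ⟨C1 + kap b ^ 2, by positivity, max P1 (max P2 (max P3 1)),
    fun z i t hi1 hi2 hzt T hT w hw => ?_⟩
  set M := 1 / (b : ℝ) ^ z with hM
  have hM0 : 0 ≤ M := by positivity
  induction T using Finset.induction_on_max with
  | empty =>
    have e1 : Av b z i (i + 1) t (fun n => Phi c w ∅ b t n) = M := by
      unfold Phi
      simp only [Finset.prod_empty]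
      rw [Av_one hb hzt (Nat.le_succ i), hM]
      push_cast
      ring
    rw [e1, Finset.sum_empty, neg_zero, Real.exp_zero, mul_one, sub_self, abs_zero, Finset.sum_empty]
    unfold err
    rw [Finset.sum_empty, mul_zero, mul_zero, add_zero]
  | insert q T hqT ih =>
    have hqT' : q ∉ T := fun hq => by
      have := hqT q hq
      omega
    have ih' := ih (fun p hp => hT p (mem_insert_of_mem hp))
    obtain ⟨hqP, hqz, hqz2, hqt⟩ := hT q (mem_insert_self _ _)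
    have hqP1 : P1 ≤ q := by omega
    have hqP2 : P2 ≤ q := by omega
    have hqP3 : P3 ≤ q := by omega
    have hq1 : 1 ≤ q := by omega
    have hq0 : (0 : ℝ) < q := by exact_mod_cast hq1
    have hst := hP1 q hqP1 z hqz2 i hi1 hi2 t hqt T (fun p hp => by
      obtain ⟨h1, h2, h3, h4⟩ := hT p (mem_insert_of_mem hp)
      exact ⟨by omega, h2, hqT p hp⟩) w hw
    rw [err_insert b κ0 hqT, Finset.sum_insert hqT', Finset.sum_insert hqT']
    set S := ∑ p ∈ T.filter (fun p : ℕ => κ0 * q < p), WW2 b p q with hS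
    have hS0 : 0 ≤ S := Finset.sum_nonneg fun p _ => WW2_nonneg b p q
    set A1 := Av b z i (i + 1) t (fun n => Phi c w T b t n) with hA1
    set A2 := Av b z i (i + 1) t (fun n => Phi c w (insert q T) b t n) with hA2
    set x := w q * (kap b * (Real.log q / q)) with hx
    set s := ∑ q ∈ T, w q * (kap b * (Real.log q / q)) with hs
    set E1 := ∑ q ∈ T, EE c b κ0 z i q with hE1
    have hE10 : 0 ≤ E1 := Finset.sum_nonneg fun p _ => EE_nonneg c b κ0 z i p
    have hlq := lg_nonneg q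
    have hκq : 0 ≤ kap b * (Real.log q / q) := mul_nonneg hκb hlq
    have hx0 : 0 ≤ x := mul_nonneg (hw q).1 hκq
    have hx1 : x ≤ kap b * (Real.log q / q) := mul_le_of_le_one_left hκq (hw q).2
    have hx2 : x ≤ 1 := hx1.trans (hP3 q hqP3)
    have hs0 : 0 ≤ s := Finset.sum_nonneg fun p _ =>
      mul_nonneg (hw p).1 (mul_nonneg hκb (lg_nonneg p))
    have hes : Real.exp (-s) ≤ 1 := Real.exp_le_one_iff.2 (by linarith)
    have hes0 : 0 < Real.exp (-s) := Real.exp_pos _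
    have e2 : Real.exp (-(x + s)) = Real.exp (-x) * Real.exp (-s) := by
      rw [← Real.exp_add]; congr 1; ring
    have h6 : x ^ 2 ≤ kap b ^ 2 * (1 / q) := by
      have h7 := hP2 q hqP2
      calc x ^ 2 ≤ (kap b * (Real.log q / q)) ^ 2 := by gcongr
        _ = kap b ^ 2 * ((Real.log q) ^ 2 / q * (1 / q)) := by field_simp
        _ ≤ kap b ^ 2 * (1 * (1 / q)) := by gcongr
        _ = _ := by ring
    have h7 := exp_second hx0
    have e3 : A2 - M * Real.exp (-(x + s)) = (A2 - (1 - x) * A1) + (1 - x) * (A1 - M * Real.exp (-s)) +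
        M * Real.exp (-s) * (1 - x - Real.exp (-x)) := by
      rw [e2]; ring
    rw [e3]
    refine (abs_add_three _ _ _).trans ?_
    have h8 : |(1 - x) * (A1 - M * Real.exp (-s))| ≤ E1 + M * ((C1 + kap b ^ 2) * err b κ0 T) := by
      rw [abs_mul, abs_of_nonneg (by linarith : 0 ≤ 1 - x)]
      exact (mul_le_of_le_one_left (abs_nonneg _) (by linarith)).trans ih'
    have h9 : |M * Real.exp (-s) * (1 - x - Real.exp (-x))| ≤ M * (kap b ^ 2 * (1 / q)) := by
      rw [abs_mul, abs_of_nonneg (by positivity : 0 ≤ M * Real.exp (-s))]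
      calc M * Real.exp (-s) * |1 - x - Real.exp (-x)| ≤ M * 1 * (kap b ^ 2 * (1 / q)) := by
            gcongr
            exact h7.trans h6
        _ = _ := by ring
    have h10 : 0 ≤ M * (kap b ^ 2 * S) := by positivity
    have h11 : 0 ≤ M * (C1 * (1 / q)) := by positivity
    have e4 : M * ((C1 + kap b ^ 2) * (1 / (q : ℝ) + S + err b κ0 T)) =
      M * (C1 * (1 / q)) + M * (kap b ^ 2 * (1 / q)) + M * (C1 * S) + M * (kap b ^ 2 * S) +
        M * ((C1 + kap b ^ 2) * err b κ0 T) := by ring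
    rw [e4]
    linarith

/-- the mean of the differences -/
theorem EE_mean (hFM : S_FM) {b A : ℕ} {c : ℕ → ℤ} (hOk : Ok b A c) :
    ∃ κ0 : ℝ, 0 < κ0 ∧ κ0 < 1 / 2 ∧ ∀ m a1 a2 : ℕ, 1 ≤ a1 → a1 ≤ a2 → ∃ C : ℝ, 0 < C ∧
    ∃ P : ℕ, ∀ q ≥ P, ∀ z : ℕ, m ≤ z → (z : ℝ) ≤ κ0 * q →
    ∑ i ∈ Ico (a1 * b ^ (z - m)) (a2 * b ^ (z - m)), EE c b κ0 z i q ≤ C * (1 / q) := by
  have hb := hOk.hb
  have hb0 : (0 : ℝ) < b := by positivity
  obtain ⟨κ0, K, hκ0, hκ1, hK, h⟩ := fm_sh hFM hOk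
  refine ⟨κ0, hκ0, hκ1, fun m a1 a2 h1 h12 => ?_⟩
  obtain ⟨P, hP⟩ := h (m + a2)
  obtain ⟨P4, hP4⟩ := eventually_atTop.1 (Pool.Agent.N176.GP.grow (κ0 * Real.log 2) 2
    (mul_pos hκ0 (Real.log_pos (by norm_num))))
  obtain ⟨P5, hP5⟩ := exists_nat_ge ((m + a2 + 1) / κ0)
  refine ⟨K * (b : ℝ) ^ (m + a2), by positivity, max P (max P4 (max P5 1)),
    fun q hq z hmz hzq => ?_⟩
  have hqP : P ≤ q := by omega
  have hqP4 : P4 ≤ q := by omega
  have hqP5 : P5 ≤ q := by omega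
  have hq1 : 1 ≤ q := by omega
  have hq0 : (0 : ℝ) < q := by exact_mod_cast hq1
  have hqr : (1 : ℝ) ≤ q := by exact_mod_cast hq1
  set y := ⌊κ0 * q⌋₊ with hy
  have hy1 : (y : ℝ) ≤ κ0 * q := Nat.floor_le (by positivity)
  have hy2 : κ0 * q < y + 1 := Nat.lt_floor_add_one _
  have hzy : z ≤ y := Nat.le_floor hzq
  have hy3 : m + a2 ≤ y := by
    have h2 : ((m : ℝ) + a2 + 1) ≤ κ0 * q := by
      rw [div_le_iff₀ hκ0] at hP5
      calc ((m : ℝ) + a2 + 1) ≤ P5 * κ0 := hP5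
        _ ≤ q * κ0 := mul_le_mul_of_nonneg_right (by exact_mod_cast hqP5) hκ0.le
        _ = _ := mul_comm _ _
    have h3 : ((m + a2 : ℕ) : ℝ) < (y : ℝ) + 1 := by push_cast; linarith
    have h4 : m + a2 < y + 1 := by exact_mod_cast h3
    omega
  have hy4 : q ≤ b ^ y := by
    have h2 := hP4 q hqP4
    have h3 : (q : ℝ) ≤ (2 : ℝ) ^ y := by
      have e : (2 : ℝ) ^ y = Real.exp (y * Real.log 2) := by
        rw [mul_comm, Real.exp_mul, Real.exp_log (by norm_num), Real.rpow_natCast]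
      have h4 : Real.exp (κ0 * Real.log 2 * q) ≤ 2 * Real.exp (y * Real.log 2) := by
        have e2 : (2 : ℝ) * Real.exp (y * Real.log 2) = Real.exp ((y + 1) * Real.log 2) := by
          rw [add_mul, one_mul, Real.exp_add, Real.exp_log (by norm_num), mul_comm]
        rw [e2, Real.exp_le_exp]
        have := Real.log_pos (show (1 : ℝ) < 2 by norm_num)
        nlinarith
      rw [e]
      nlinarith
    have h5 : (2 : ℝ) ^ y ≤ (b : ℝ) ^ y := by
      gcongr
      exact_mod_cast hb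
    exact_mod_cast h3.trans h5
  have hsub : Ico (a1 * b ^ (y - m)) (a2 * b ^ (y - m)) ⊆
      Ico (b ^ (y - (m + a2))) (b ^ (y + (m + a2))) := by
    intro j hj
    rw [mem_Ico] at hj ⊢
    have h4 : a2 < b ^ a2 := Nat.lt_pow_self (by omega)
    have h5 : b ^ (y - (m + a2)) ≤ b ^ (y - m) := Nat.pow_le_pow_right (by omega) (by omega)
    have h6 : b ^ (y - m) ≤ a1 * b ^ (y - m) := Nat.le_mul_of_pos_left _ h1
    have h7 : a2 * b ^ (y - m) ≤ b ^ a2 * b ^ (y - m) := Nat.mul_le_mul_right _ h4.le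
    have h8 : b ^ a2 * b ^ (y - m) ≤ b ^ (y + (m + a2)) := by
      rw [← pow_add]
      exact Nat.pow_le_pow_right (by omega) (by omega)
    omega
  have hsum : ∑ j ∈ Ico (a1 * b ^ (y - m)) (a2 * b ^ (y - m)),
        |(cnt c b y j q : ℝ) / (b : ℝ) ^ (q - y) - kap b * (Real.log q / q)| ≤
      (b : ℝ) ^ (y + (m + a2)) * (K / q) :=
    (Finset.sum_le_sum_of_subset_of_nonneg hsub fun _ _ _ => abs_nonneg _).trans
      (hP q hqP y hy3 hy1 hy4)
  have e1 : ∑ i ∈ Ico (a1 * b ^ (z - m)) (a2 * b ^ (z - m)), EE c b κ0 z i q =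
      (∑ j ∈ Ico (a1 * b ^ (y - m)) (a2 * b ^ (y - m)),
        |(cnt c b y j q : ℝ) / (b : ℝ) ^ (q - y) - kap b * (Real.log q / q)|) / (b : ℝ) ^ y := by
    have h2 := Av_split (b := b) (m := m) (a1 := a1) (a2 := a2) (z := z) (t := y) hmz hzy h12
      (fun j => |(cnt c b y j q : ℝ) / (b : ℝ) ^ (q - y) - kap b * (Real.log q / q)|)
    unfold Av at h2
    rw [h2]
    refine Finset.sum_congr rfl fun i _ => ?_
    unfold EE
    rw [← hy]
  rw [e1, div_le_iff₀ (by positivity)]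
  refine hsum.trans (le_of_eq ?_)
  rw [pow_add]
  ring

end Run7.h854.PQ
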