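import Mathlib
import Pool.Agent.Run7.h854.PQ.Cell

set_option autoImplicit false

/-!
# Differences of a martingale of functions of the digits
-/

namespace Run7.h854.PQ

open Finset Filter Topology
open Pool.Agent.N176.OW (cell)
open Run7.h854.PO

/-- the mean of `F` (a function of the digits up to the level `t`), given the digits up to `s` -/
noncomputable def GG (b s t : ℕ) (F : ℕ → ℝ) (i : ℕ) : ℝ := (b : ℝ) ^ s * Av b s i (i + 1) t F

/-- the difference -/
noncomputable def DD (b s t : ℕ) (F : ℕ → ℝ) (n : ℕ) : ℝ := F n - GG b s t F (n / b ^ (t - s))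

lemma GG_mem {b s t : ℕ} (hb : 2 ≤ b) (hst : s ≤ t) {F : ℕ → ℝ} (hF : ∀ n, 0 ≤ F n ∧ F n ≤ 1)
    (i : ℕ) : 0 ≤ GG b s t F i ∧ GG b s t F i ≤ 1 := by
  have hb0 : (0 : ℝ) < b := by positivity
  unfold GG
  constructor
  · exact mul_nonneg (by positivity) (Av_nonneg fun n => (hF n).1)
  · have h1 := Av_mono (b := b) (m := s) (a1 := i) (a2 := i + 1) (t := t) fun n => (hF n).2
    rw [Av_one hb hst (Nat.le_succ i)] at h1
    calc (b : ℝ) ^ s * Av b s i (i + 1) t F ≤
        (b : ℝ) ^ s * ((((i + 1 : ℕ) : ℝ) - i) / (b : ℝ) ^ s) :=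
          mul_le_mul_of_nonneg_left h1 (by positivity)
      _ = 1 := by
          push_cast
          field_simp
          ring

lemma DD_abs {b s t : ℕ} (hb : 2 ≤ b) (hst : s ≤ t) {F : ℕ → ℝ} (hF : ∀ n, 0 ≤ F n ∧ F n ≤ 1)
    (n : ℕ) : |DD b s t F n| ≤ 1 := by
  obtain ⟨h1, h2⟩ := hF n
  obtain ⟨h3, h4⟩ := GG_mem hb hst hF (n / b ^ (t - s))
  unfold DD
  rw [abs_le]
  constructor <;> linarith

/-- the mean over a cell -/
lemma DD_mean {b s t : ℕ} (hb : 2 ≤ b) (hst : s ≤ t) (F : ℕ → ℝ) (i : ℕ) :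
    Av b s i (i + 1) t (DD b s t F) = 0 := by
  have hb0 : (0 : ℝ) < b := by positivity
  have h1 := Av_level (b := b) (m := s) (a1 := i) (a2 := i + 1) hb le_rfl hst (Nat.le_succ i)
    (GG b s t F)
  unfold DD
  rw [Av_sub, h1]
  have h2 : Av b s i (i + 1) s (GG b s t F) = GG b s t F i / (b : ℝ) ^ s := by
    unfold Av
    rw [Nat.sub_self, pow_zero, mul_one, mul_one, Nat.Ico_succ_singleton, Finset.sum_singleton]
  rw [h2]
  unfold GG
  field_simp
  ring

/-- a function of the digits up to `s`, times the difference -/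
lemma Av_mul_DD {b m a1 a2 s t : ℕ} (hb : 2 ≤ b) (hms : m ≤ s) (hst : s ≤ t) (h12 : a1 ≤ a2)
    (f F : ℕ → ℝ) : Av b m a1 a2 t (fun n => f (n / b ^ (t - s)) * DD b s t F n) = 0 := by
  rw [Av_split hms hst h12]
  refine Finset.sum_eq_zero fun i _ => ?_
  have h1 : Av b s i (i + 1) t (fun n => f (n / b ^ (t - s)) * DD b s t F n) =
      Av b s i (i + 1) t (fun n => f i * DD b s t F n) := by
    unfold Av
    congr 1
    refine Finset.sum_congr rfl fun n hn => ?_
    rw [mem_Ico] at hn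
    have h2 : n / b ^ (t - s) = i := Nat.div_eq_of_lt_le hn.1 hn.2
    simp only [h2]
  rw [h1, Av_mul, DD_mean hb hst, mul_zero]

section
variable (b : ℕ) (z : ℕ → ℕ) (F : ℕ → ℕ → ℝ)

/-- the sum of the differences, as a function of the digits up to the level `z J` -/
noncomputable def SS (J n : ℕ) : ℝ :=
  ∑ j ∈ range J, DD b (z j) (z (j + 1)) (F j) (n / b ^ (z J - z (j + 1)))

variable {b z F}

lemma SS_succ (hz : Monotone z) (J n : ℕ) :
    SS b z F (J + 1) n = SS b z F J (n / b ^ (z (J + 1) - z J)) +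
      DD b (z J) (z (J + 1)) (F J) n := by
  unfold SS
  rw [Finset.sum_range_succ, Nat.sub_self, pow_zero, Nat.div_one]
  congr 1
  refine Finset.sum_congr rfl fun j hj => ?_
  rw [mem_range] at hj
  rw [div_div (hz (by omega : j + 1 ≤ J)) (hz (Nat.le_succ J))]

/-- the second moment -/
theorem SS_sq {m a1 a2 : ℕ} (hb : 2 ≤ b) (hz : Monotone z) (hm : m ≤ z 0) (h12 : a1 ≤ a2)
    (hF : ∀ j n, 0 ≤ F j n ∧ F j n ≤ 1) (J : ℕ) :
    Av b m a1 a2 (z J) (fun n => SS b z F J n ^ 2) ≤ J * (((a2 : ℝ) - a1) / (b : ℝ) ^ m) := by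
  have hmz : ∀ j, m ≤ z j := fun j => hm.trans (hz (Nat.zero_le j))
  induction J with
  | zero =>
    have : (fun n => SS b z F 0 n ^ 2) = fun _ => 0 := by
      funext n
      unfold SS
      simp
    rw [this]
    unfold Av
    simp
  | succ J ih =>
    set D := DD b (z J) (z (J + 1)) (F J) with hD
    have hzJ : z J ≤ z (J + 1) := hz (Nat.le_succ J)
    have e1 : (fun n => SS b z F (J + 1) n ^ 2) = fun n =>
        (SS b z F J (n / b ^ (z (J + 1) - z J)) ^ 2 +
          (2 * (SS b z F J (n / b ^ (z (J + 1) - z J)) * D n))) + D n ^ 2 := by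
      funext n
      rw [SS_succ hz, hD]
      ring
    have e2 := Av_level (a1 := a1) (a2 := a2) hb (hmz J) hzJ h12 (fun n => SS b z F J n ^ 2)
    have e3 := Av_mul_DD (a1 := a1) (a2 := a2) hb (hmz J) hzJ h12 (SS b z F J) (F J)
    rw [← hD] at e3
    rw [e1, Av_add, Av_add, e2, Av_mul, e3, mul_zero, add_zero]
    have h2 : Av b m a1 a2 (z (J + 1)) (fun n => D n ^ 2) ≤ ((a2 : ℝ) - a1) / (b : ℝ) ^ m := by
      rw [← Av_one hb (hmz (J + 1)) h12]
      refine Av_mono fun n => ?_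
      have h3 := DD_abs hb (hz (Nat.le_succ J)) (hF J) n
      rw [← hD] at h3
      rw [← sq_abs]
      exact pow_le_one₀ (abs_nonneg _) h3
    push_cast
    linarith

/-- the inequality of Chebyshev -/
lemma cheb {m a1 a2 t : ℕ} (f : ℕ → ℝ) {δ : ℝ} (hδ : 0 < δ) [DecidablePred fun n => δ < |f n|] :
    Av b m a1 a2 t (fun n => if δ < |f n| then 1 else 0) ≤
      Av b m a1 a2 t (fun n => f n ^ 2) / δ ^ 2 := by
  rw [le_div_iff₀ (by positivity), mul_comm, ← Av_mul]
  refine Av_mono fun n => ?_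
  split_ifs with h
  · rw [mul_one, ← sq_abs (f n)]
    exact pow_le_pow_left₀ hδ.le h.le 2
  · rw [mul_zero]
    positivity

/-- the inequality of Markov -/
lemma mark {m a1 a2 t : ℕ} {f : ℕ → ℝ} (hf : ∀ n, 0 ≤ f n) {δ : ℝ} (hδ : 0 < δ)
    [DecidablePred fun n => δ < f n] :
    Av b m a1 a2 t (fun n => if δ < f n then 1 else 0) ≤ Av b m a1 a2 t f / δ := by
  rw [le_div_iff₀ hδ, mul_comm, ← Av_mul]
  refine Av_mono fun n => ?_
  split_ifs with h
  · rw [mul_one]
    exact h.le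
  · rw [mul_zero]
    exact hf n

end

end Run7.h854.PQ
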