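import Mathlib
import Pool.Agent.Run7.h854.PO.Err

set_option autoImplicit false

/-!
# A bound for the error term
-/

namespace Run7.h854.PQ

open Finset Filter Topology
open Run7.h854.PO

/-- a bound for the error term -/
theorem err_le {b : ℕ} (hb : 2 ≤ b) {κ0 : ℝ} (T : Finset ℕ) {ε : ℝ}
    (hnear : ∀ q ∈ T, ∑ p ∈ T.filter (fun p : ℕ => κ0 * q < p ∧ p < q), Real.log p / (p : ℝ) ≤ ε)
    (H : ℕ) :
    err b κ0 T ≤ ∑ q ∈ T, 1 / (q : ℝ) + ε * ∑ q ∈ T, Real.log q / (q : ℝ) +
      (∑ h ∈ Icc 1 H, ∑ p ∈ T.filter (fun p => p + h ∈ T), Real.log p / (p : ℝ) +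
        4 * (1 / 2) ^ H * ∑ p ∈ T, Real.log p / (p : ℝ)) := by
  classical
  have hb0 : (0 : ℝ) < b := by positivity
  have e0 : err b κ0 T = ∑ q ∈ T, 1 / (q : ℝ) +
      ∑ q ∈ T, ∑ p ∈ T.filter (fun p : ℕ => κ0 * q < p ∧ p < q), Real.log p / (p : ℝ) * (Real.log q / q) +
      ∑ q ∈ T, ∑ p ∈ T.filter (fun p : ℕ => κ0 * q < p ∧ p < q),
        Real.log p / (p : ℝ) / (b : ℝ) ^ (q - p) := by
    unfold err WW2
    rw [← Finset.sum_add_distrib, ← Finset.sum_add_distrib]
    refine Finset.sum_congr rfl fun q _ => ?_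
    rw [add_assoc, ← Finset.sum_add_distrib]
  rw [e0]
  refine add_le_add (add_le_add le_rfl ?_) ?_
  · rw [Finset.mul_sum]
    refine Finset.sum_le_sum fun q hq => ?_
    rw [← Finset.sum_mul]
    exact mul_le_mul_of_nonneg_right (hnear q hq) (lg_nonneg q)
  · have h4 : ∑ q ∈ T, ∑ p ∈ T.filter (fun p : ℕ => κ0 * q < p ∧ p < q),
        Real.log p / (p : ℝ) / (b : ℝ) ^ (q - p) ≤
        ∑ p ∈ T, ∑ q ∈ T.filter (fun q => p < q), Real.log p / (p : ℝ) / (b : ℝ) ^ (q - p) := by
      have e : ∑ p ∈ T, ∑ q ∈ T.filter (fun q => p < q), Real.log p / (p : ℝ) / (b : ℝ) ^ (q - p) =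
          ∑ q ∈ T, ∑ p ∈ T.filter (fun p => p < q), Real.log p / (p : ℝ) / (b : ℝ) ^ (q - p) := by
        simp_rw [Finset.sum_filter]
        rw [Finset.sum_comm]
      rw [e]
      refine Finset.sum_le_sum fun q _ => ?_
      refine Finset.sum_le_sum_of_subset_of_nonneg ?_ fun p _ _ =>
        div_nonneg (lg_nonneg p) (by positivity)
      intro p hp
      rw [mem_filter] at hp ⊢
      exact ⟨hp.1, hp.2.2⟩
    have h5 : ∀ p ∈ T, ∑ q ∈ T.filter (fun q => p < q), Real.log p / (p : ℝ) / (b : ℝ) ^ (q - p) ≤
        ∑ h ∈ Icc 1 H, (if p + h ∈ T then Real.log p / (p : ℝ) else 0) +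
        4 * (1 / 2) ^ H * (Real.log p / p) := by
      intro p _
      have hlp := lg_nonneg p
      have e1 : T.filter (fun q => p < q) = T.filter (fun q => p < q ∧ q ≤ p + H) ∪
          T.filter (fun q => p + H < q) := by
        ext q
        simp only [mem_filter, mem_union]
        constructor
        · rintro ⟨h6, h7⟩
          rcases le_or_gt q (p + H) with h | h
          · exact Or.inl ⟨h6, h7, h⟩
          · exact Or.inr ⟨h6, h⟩
        · rintro (⟨h6, h7, _⟩ | ⟨h6, h7⟩)
          · exact ⟨h6, h7⟩
          · exact ⟨h6, by omega⟩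
      have hdis : Disjoint (T.filter (fun q => p < q ∧ q ≤ p + H)) (T.filter (fun q => p + H < q)) := by
        rw [Finset.disjoint_left]
        intro q h6 h7
        rw [mem_filter] at h6 h7
        omega
      rw [e1, Finset.sum_union hdis]
      refine add_le_add ?_ ?_
      · rw [← Finset.sum_filter]
        calc ∑ q ∈ T.filter (fun q => p < q ∧ q ≤ p + H), Real.log p / (p : ℝ) / (b : ℝ) ^ (q - p)
            ≤ ∑ q ∈ T.filter (fun q => p < q ∧ q ≤ p + H), Real.log p / (p : ℝ) := by
              refine Finset.sum_le_sum fun q _ => ?_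
              exact div_le_self hlp (one_le_pow₀ (by exact_mod_cast (by omega : 1 ≤ b)))
          _ = ((T.filter (fun q => p < q ∧ q ≤ p + H)).card : ℝ) * (Real.log p / p) := by
              rw [Finset.sum_const, nsmul_eq_mul]
          _ ≤ (((Icc 1 H).filter (fun h => p + h ∈ T)).card : ℝ) * (Real.log p / p) := by
              refine mul_le_mul_of_nonneg_right ?_ hlp
              have : (T.filter (fun q => p < q ∧ q ≤ p + H)).card ≤
                  ((Icc 1 H).filter (fun h => p + h ∈ T)).card := by
                refine Finset.card_le_card_of_injOn (fun q => q - p) ?_ ?_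
                · intro q hq
                  rw [mem_coe, mem_filter] at hq
                  rw [mem_coe, mem_filter, mem_Icc]
                  change (1 ≤ q - p ∧ q - p ≤ H) ∧ p + (q - p) ∈ T
                  refine ⟨by omega, ?_⟩
                  have : p + (q - p) = q := by omega
                  rw [this]
                  exact hq.1
                · intro q hq q' hq' he
                  rw [mem_coe, mem_filter] at hq hq'
                  simp only at he
                  omega
              exact_mod_cast this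
          _ = _ := by rw [Finset.sum_const, nsmul_eq_mul]
      · have h6 := Pool.Agent.N176.GP.geo_dist hb (T.filter (fun q => p + H < q)) (p + H)
        calc ∑ q ∈ T.filter (fun q => p + H < q), Real.log p / (p : ℝ) / (b : ℝ) ^ (q - p)
            = ∑ q ∈ T.filter (fun q => p + H < q), Real.log p / (p : ℝ) * (((b : ℝ) ^ H)⁻¹ *
              ((b : ℝ) ^ ((p + H - q) + (q - (p + H))))⁻¹) := by
              refine Finset.sum_congr rfl fun q hq => ?_
              rw [mem_filter] at hq
              rw [div_eq_mul_inv, ← mul_inv, ← pow_add]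
              congr 3
              omega
          _ = Real.log p / (p : ℝ) * ((b : ℝ) ^ H)⁻¹ * ∑ q ∈ T.filter (fun q => p + H < q),
              ((b : ℝ) ^ ((p + H - q) + (q - (p + H))))⁻¹ := by
              rw [Finset.mul_sum]
              refine Finset.sum_congr rfl fun q _ => by ring
          _ ≤ Real.log p / (p : ℝ) * ((b : ℝ) ^ H)⁻¹ * 4 := mul_le_mul_of_nonneg_left h6 (by positivity)
          _ ≤ Real.log p / (p : ℝ) * (1 / 2) ^ H * 4 := by
              have h7 : ((b : ℝ) ^ H)⁻¹ ≤ (1 / 2 : ℝ) ^ H := by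
                rw [one_div_pow, one_div]
                apply inv_anti₀ (by positivity)
                gcongr
                exact_mod_cast hb
              gcongr
          _ = _ := by ring
    calc _ ≤ _ := h4
      _ ≤ ∑ p ∈ T, (∑ h ∈ Icc 1 H, (if p + h ∈ T then Real.log p / (p : ℝ) else 0) +
          4 * (1 / 2) ^ H * (Real.log p / p)) := Finset.sum_le_sum h5
      _ = _ := by
          rw [Finset.sum_add_distrib, Finset.sum_comm, Finset.mul_sum]
          simp_rw [Finset.sum_filter]

end Run7.h854.PQ
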