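import Mathlib

set_option autoImplicit false

/-!
# Means of sequences
-/

namespace Run7.h854.PQ

open Finset Filter Topology

/-- the means of the sequence converge -/
def Ces (x : ℕ → ℝ) (l : ℝ) : Prop :=
  Tendsto (fun J : ℕ => (∑ j ∈ range J, x j) / (J : ℝ)) atTop (𝓝 l)

lemma ces_of_tendsto {x : ℕ → ℝ} {l : ℝ} (h : Tendsto x atTop (𝓝 l)) : Ces x l := by
  unfold Ces
  refine h.cesaro.congr fun J => ?_
  rw [div_eq_inv_mul]

lemma Ces.add {x y : ℕ → ℝ} {l l' : ℝ} (hx : Ces x l) (hy : Ces y l') :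
    Ces (fun j => x j + y j) (l + l') := by
  unfold Ces at *
  refine (Filter.Tendsto.add hx hy).congr fun J => ?_
  rw [Finset.sum_add_distrib, add_div]

lemma Ces.sub {x y : ℕ → ℝ} {l l' : ℝ} (hx : Ces x l) (hy : Ces y l') :
    Ces (fun j => x j - y j) (l - l') := by
  unfold Ces at *
  refine (Filter.Tendsto.sub hx hy).congr fun J => ?_
  rw [Finset.sum_sub_distrib, sub_div]

lemma Ces.mul_left {x : ℕ → ℝ} {l : ℝ} (c : ℝ) (hx : Ces x l) : Ces (fun j => c * x j) (c * l) := by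
  unfold Ces at *
  refine (Filter.Tendsto.const_mul c hx).congr fun J => ?_
  rw [← Finset.mul_sum, mul_div_assoc]

lemma Ces.sum {ι : Type*} (s : Finset ι) {x : ι → ℕ → ℝ} {l : ι → ℝ} (h : ∀ i ∈ s, Ces (x i) (l i)) :
    Ces (fun j => ∑ i ∈ s, x i j) (∑ i ∈ s, l i) := by
  classical
  induction s using Finset.induction_on with
  | empty =>
    simp only [Finset.sum_empty]
    exact ces_of_tendsto tendsto_const_nhds
  | insert i s hi ih =>
    simp only [Finset.sum_insert hi]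
    exact (h i (mem_insert_self _ _)).add (ih fun i' hi' => h i' (mem_insert_of_mem hi'))

lemma Ces.congr {x y : ℕ → ℝ} {l : ℝ} (hx : Ces x l) (h : ∀ j, x j = y j) : Ces y l := by
  have : x = y := funext h
  rwa [← this]

lemma Ces.congr' {x y : ℕ → ℝ} {l : ℝ} (hx : Ces x l) (h : ∀ᶠ j in atTop, x j = y j) : Ces y l := by
  have h1 : Ces (fun j => y j - x j) 0 := by
    refine ces_of_tendsto (tendsto_const_nhds.congr' ?_)
    filter_upwards [h] with j hj
    rw [hj, sub_self]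
  have h2 := hx.add h1
  rw [add_zero] at h2
  exact h2.congr fun j => by ring

/-- a shift -/
lemma Ces.shift {x : ℕ → ℝ} {l : ℝ} (k : ℕ) (hx : Ces x l) : Ces (fun j => x (j + k)) l := by
  unfold Ces at *
  have h1 : Tendsto (fun J : ℕ => (∑ j ∈ range (J + k), x j) / ((J + k : ℕ) : ℝ)) atTop (𝓝 l) :=
    (tendsto_add_atTop_iff_nat (f := fun J : ℕ => (∑ j ∈ range J, x j) / (J : ℝ)) k).2 hx
  have h2 : Tendsto (fun J : ℕ => ((J + k : ℕ) : ℝ) / (J : ℝ)) atTop (𝓝 1) := by
    have h3 : Tendsto (fun J : ℕ => 1 + (k : ℝ) / (J : ℝ)) atTop (𝓝 (1 + 0)) :=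
      tendsto_const_nhds.add (tendsto_const_div_atTop_nhds_zero_nat (k : ℝ))
    rw [add_zero] at h3
    refine h3.congr' ?_
    filter_upwards [eventually_ge_atTop 1] with J hJ
    have hJ0 : (J : ℝ) ≠ 0 := by
      have : (0 : ℝ) < J := by exact_mod_cast hJ
      exact this.ne'
    push_cast
    field_simp
  have h4 : Tendsto (fun J : ℕ => (∑ j ∈ range k, x j) / (J : ℝ)) atTop (𝓝 0) :=
    tendsto_const_div_atTop_nhds_zero_nat _
  have h5 := (h1.mul h2).sub h4
  rw [mul_one, sub_zero] at h5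
  refine h5.congr' ?_
  filter_upwards [eventually_ge_atTop 1] with J hJ
  have hJ0 : (0 : ℝ) < J := by exact_mod_cast hJ
  have hJk : (0 : ℝ) < ((J + k : ℕ) : ℝ) := by push_cast; positivity
  have h6 : ∑ j ∈ range (J + k), x j = ∑ j ∈ range k, x j + ∑ j ∈ range J, x (j + k) := by
    rw [add_comm J k, Finset.sum_range_add]
    congr 1
    exact Finset.sum_congr rfl fun j _ => by rw [add_comm]
  rw [h6]
  field_simp
  ring

/-- a shift, backwards -/
lemma Ces.unshift {x : ℕ → ℝ} {l : ℝ} (k : ℕ) (hx : Ces (fun j => x (j + k)) l) : Ces x l := by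
  unfold Ces at *
  rw [← tendsto_add_atTop_iff_nat k]
  have h2 : Tendsto (fun J : ℕ => (J : ℝ) / ((J + k : ℕ) : ℝ)) atTop (𝓝 1) := by
    have h3 : Tendsto (fun J : ℕ => 1 - (k : ℝ) / ((J + k : ℕ) : ℝ)) atTop (𝓝 (1 - 0)) := by
      refine tendsto_const_nhds.sub ?_
      exact (tendsto_add_atTop_iff_nat (f := fun J : ℕ => (k : ℝ) / (J : ℝ)) k).2
        (tendsto_const_div_atTop_nhds_zero_nat (k : ℝ))
    rw [sub_zero] at h3
    refine h3.congr' ?_
    filter_upwards [eventually_ge_atTop 1] with J hJ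
    have hJk : (0 : ℝ) < ((J + k : ℕ) : ℝ) := by
      have : (0 : ℝ) < J := by exact_mod_cast hJ
      push_cast; positivity
    rw [eq_div_iff hJk.ne', sub_mul, div_mul_cancel₀ _ hJk.ne']
    push_cast
    ring
  have h4 : Tendsto (fun J : ℕ => (∑ j ∈ range k, x j) / ((J + k : ℕ) : ℝ)) atTop (𝓝 0) :=
    (tendsto_add_atTop_iff_nat (f := fun J : ℕ => (∑ j ∈ range k, x j) / (J : ℝ)) k).2
      (tendsto_const_div_atTop_nhds_zero_nat _)
  have h5 := (hx.mul h2).add h4
  rw [mul_one, add_zero] at h5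
  refine h5.congr' ?_
  filter_upwards [eventually_ge_atTop 1] with J hJ
  have hJ0 : (0 : ℝ) < J := by exact_mod_cast hJ
  have hJk : (0 : ℝ) < ((J + k : ℕ) : ℝ) := by push_cast; positivity
  have h6 : ∑ j ∈ range (J + k), x j = ∑ j ∈ range k, x j + ∑ j ∈ range J, x (j + k) := by
    rw [add_comm J k, Finset.sum_range_add]
    congr 1
    exact Finset.sum_congr rfl fun j _ => by rw [add_comm]
  rw [h6]
  field_simp
  ring

/-- a subsequence of the means suffices -/
lemma ces_quartic {x : ℕ → ℝ} (h0 : ∀ j, 0 ≤ x j) {l : ℝ}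
    (h : Tendsto (fun i : ℕ => (∑ j ∈ range ((i + 1) ^ 4), x j) / (((i + 1) ^ 4 : ℕ) : ℝ))
      atTop (𝓝 l)) : Ces x l := by
  unfold Ces
  refine tendsto_div_of_monotone_of_exists_subseq_tendsto_div (fun J => ∑ j ∈ range J, x j) l
    ?_ fun a ha => ⟨fun i => (i + 1) ^ 4, ?_, ?_, h⟩
  · intro J J' hJ
    exact Finset.sum_le_sum_of_subset_of_nonneg (Finset.range_mono hJ) fun j _ _ => h0 j
  · have h1 : Tendsto (fun i : ℕ => (1 + 1 / ((i : ℝ) + 1)) ^ 4) atTop (𝓝 ((1 + 0) ^ 4)) :=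
      (tendsto_const_nhds.add tendsto_one_div_add_atTop_nhds_zero_nat).pow 4
    rw [add_zero, one_pow] at h1
    filter_upwards [h1.eventually_lt_const ha] with i hi
    push_cast
    have h2 : (0 : ℝ) < (i : ℝ) + 1 := by positivity
    have h3 : ((i : ℝ) + 1 + 1) ^ 4 = (1 + 1 / ((i : ℝ) + 1)) ^ 4 * ((i : ℝ) + 1) ^ 4 := by
      rw [← mul_pow]
      congr 1
      field_simp
    rw [h3]
    exact mul_le_mul_of_nonneg_right hi.le (by positivity)
  · refine tendsto_atTop_mono (fun i => ?_) tendsto_id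
    simp only [id]
    calc i ≤ i + 1 := Nat.le_succ i
      _ = (i + 1) ^ 1 := (pow_one _).symm
      _ ≤ (i + 1) ^ 4 := Nat.pow_le_pow_right (by omega) (by norm_num)

/-- all residue classes -/
lemma ces_mod {x : ℕ → ℝ} (h0 : ∀ j, 0 ≤ x j) {l : ℝ} {M : ℕ} (hM : 1 ≤ M)
    (h : ∀ r < M, Ces (fun j => x (r + M * j)) l) : Ces x l := by
  have hM0 : (0 : ℝ) < M := by exact_mod_cast hM
  unfold Ces
  refine tendsto_div_of_monotone_of_exists_subseq_tendsto_div (fun J => ∑ j ∈ range J, x j) l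
    ?_ fun a ha => ⟨fun i => M * (i + 1), ?_, ?_, ?_⟩
  · intro J J' hJ
    exact Finset.sum_le_sum_of_subset_of_nonneg (Finset.range_mono hJ) fun j _ _ => h0 j
  · have h1 : Tendsto (fun i : ℕ => (1 + 1 / ((i : ℝ) + 1))) atTop (𝓝 (1 + 0)) :=
      (tendsto_const_nhds.add tendsto_one_div_add_atTop_nhds_zero_nat)
    rw [add_zero] at h1
    filter_upwards [h1.eventually_lt_const ha] with i hi
    push_cast
    have h2 : (0 : ℝ) < (i : ℝ) + 1 := by positivity
    have h3 : (M : ℝ) * ((i : ℝ) + 1 + 1) = (1 + 1 / ((i : ℝ) + 1)) * (M * ((i : ℝ) + 1)) := by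
      field_simp
    rw [h3]
    exact mul_le_mul_of_nonneg_right hi.le (by positivity)
  · refine tendsto_atTop_mono (fun i => ?_) tendsto_id
    simp only [id]
    nlinarith
  · have h1 : Ces (fun j => ∑ r ∈ range M, x (r + M * j)) (∑ r ∈ range M, l) :=
      Ces.sum _ fun r hr => h r (mem_range.1 hr)
    have h2 := h1.mul_left (1 / (M : ℝ))
    rw [Finset.sum_const, card_range, nsmul_eq_mul] at h2
    have e1 : 1 / (M : ℝ) * (M * l) = l := by field_simp
    rw [e1] at h2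
    unfold Ces at h2
    have h3 := (tendsto_add_atTop_iff_nat (f := fun J : ℕ => (∑ j ∈ range J, 1 / (M : ℝ) *
      ∑ r ∈ range M, x (r + M * j)) / (J : ℝ)) 1).2 h2
    refine h3.congr fun i => ?_
    have h4 : ∀ J : ℕ, ∑ j ∈ range J, ∑ r ∈ range M, x (r + M * j) = ∑ j ∈ range (M * J), x j := by
      intro J
      induction J with
      | zero => simp
      | succ J ih =>
        rw [Finset.sum_range_succ, ih, Nat.mul_succ, Finset.sum_range_add]
        congr 1
        exact Finset.sum_congr rfl fun r _ => by rw [add_comm]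
    rw [← Finset.mul_sum, h4]
    push_cast
    field_simp

/-- comparison -/
lemma ces_squeeze {x y : ℕ → ℝ} {l : ℝ} (h : Ces y l) {z : ℕ → ℝ} (hz : Ces z 0)
    (hxy : ∀ J : ℕ, |∑ j ∈ range J, x j - ∑ j ∈ range J, y j| ≤ ∑ j ∈ range J, z j) : Ces x l := by
  unfold Ces at *
  have h1 : Tendsto (fun J : ℕ => (∑ j ∈ range J, x j) / (J : ℝ) - (∑ j ∈ range J, y j) / (J : ℝ))
      atTop (𝓝 0) := by
    refine squeeze_zero_norm (fun J => ?_) hz
    rw [Real.norm_eq_abs, ← sub_div, abs_div, abs_of_nonneg (Nat.cast_nonneg J : (0 : ℝ) ≤ J)]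
    exact div_le_div_of_nonneg_right (hxy J) (Nat.cast_nonneg J)
  have h2 := h1.add h
  simp only [sub_add_cancel, zero_add] at h2
  exact h2

end Run7.h854.PQ
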