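import Mathlib
import Pool.Agent.Run7.h854.PQ.Mart
import Pool.Agent.Run7.h854.PQ.Ces
import Pool.Agent.Run7.h854.PO.Law

set_option autoImplicit false

/-!
# The Laplace functionals of the exponents in a sequence of sets of levels, for almost every amplitude
-/

namespace Run7.h854.PQ

open Finset Filter Topology MeasureTheory
open Pool.Agent.H305R2 (roughPart)
open Pool.Agent.N176.OW (cell kap S_FM)
open Pool.Agent.N176.SH
open Pool.Agent.N176.GP (NB NB_spec NB_div)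
open Run7.h854.PO

open Classical in
/-- Borel–Cantelli for sets given by the digits -/
lemma bc {b m a1 a2 : ℕ} (hb : 2 ≤ b) {t : ℕ → ℕ} (hmt : ∀ i, m ≤ t i) (Q : ℕ → ℕ → Prop)
    {C : ℝ} (hQ : ∀ i : ℕ, Av b m a1 a2 (t i) (fun n => if Q i n then 1 else 0) ≤
      C / ((i : ℝ) + 1) ^ 2) :
    ∀ᵐ β : ℝ, (a1 : ℝ) / (b : ℝ) ^ m < β → β ≤ (a2 : ℝ) / (b : ℝ) ^ m →
      ∀ᶠ i in atTop, ¬ Q i (NB b β (t i)) := by
  set E : ℕ → Set ℝ := fun i => {β : ℝ | (a1 : ℝ) / (b : ℝ) ^ m < β ∧ β ≤ (a2 : ℝ) / (b : ℝ) ^ m ∧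
    Q i (NB b β (t i))} with hE
  have hsum : Summable (fun i : ℕ => C / ((i : ℝ) + 1) ^ 2) := by
    have h1 : Summable (fun i : ℕ => 1 / ((i : ℝ)) ^ 2) :=
      Real.summable_one_div_nat_pow.2 (by norm_num)
    have h2 := (summable_nat_add_iff (f := fun i : ℕ => 1 / ((i : ℝ)) ^ 2) 1).2 h1
    refine (h2.mul_left C).congr fun i => ?_
    push_cast
    ring
  have hfin : ∑' i, volume (E i) ≠ ⊤ := by
    refine ne_top_of_le_ne_top hsum.tsum_ofReal_ne_top (ENNReal.tsum_le_tsum fun i => ?_)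
    rw [hE]
    simp only
    rw [vol_eq hb (hmt i) (Q i)]
    exact ENNReal.ofReal_le_ofReal (hQ i)
  filter_upwards [ae_eventually_notMem hfin] with β hβ h1 h2
  filter_upwards [hβ] with i hi hQi
  exact hi ⟨h1, h2, hQi⟩

/-- the range of the integers -/
lemma NB_range {b m a1 a2 : ℕ} (hb : 2 ≤ b) {β : ℝ} (h1 : (a1 : ℝ) / (b : ℝ) ^ m < β)
    (h2 : β ≤ (a2 : ℝ) / (b : ℝ) ^ m) {t : ℕ} (hmt : m ≤ t) :
    a1 * b ^ (t - m) ≤ NB b β t ∧ NB b β t < a2 * b ^ (t - m) := by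
  have hb0 : (0 : ℝ) < b := by positivity
  have hβ : 0 < β := lt_of_le_of_lt (by positivity) h1
  have hbm : (0 : ℝ) < (b : ℝ) ^ m := by positivity
  obtain ⟨h3, h4⟩ := NB_spec hb hβ m
  rw [div_lt_iff₀ hbm] at h1
  rw [le_div_iff₀ hbm] at h2
  have h5 : (a1 : ℝ) < ((NB b β m + 1 : ℕ) : ℝ) := by push_cast; linarith
  have h6 : ((NB b β m : ℕ) : ℝ) < (a2 : ℝ) := by linarith
  have h7 : a1 < NB b β m + 1 := by exact_mod_cast h5
  have h8 : NB b β m < a2 := by exact_mod_cast h6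
  have h9 := NB_div hb hβ hmt
  have hpos : 0 < b ^ (t - m) := by positivity
  constructor
  · rw [← Nat.le_div_iff_mul_le hpos, h9]
    omega
  · rw [← Nat.div_lt_iff_lt_mul hpos, h9]
    exact h8

theorem at_main (hTU : S_TU) (hRB : S_RB) (hFM : S_FM) {b A : ℕ} {c : ℕ → ℤ} (hOk : Ok b A c) :
    ∃ κ0 : ℝ, 0 < κ0 ∧ κ0 < 1 / 2 ∧ ∀ m a1 a2 : ℕ, 1 ≤ a1 → a1 ≤ a2 → ∃ P : ℕ,
    ∀ z : ℕ → ℕ, Monotone z → m + a2 ≤ z 0 → ∀ T : ℕ → Finset ℕ,
    (∀ j, ∀ p ∈ T j, P ≤ p ∧ 2 * A * z j ≤ p ∧ (z j : ℝ) ≤ κ0 * p ∧ p < z (j + 1)) →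
    ∀ K : ℝ, (∀ J : ℕ, ∑ j ∈ range J, ∑ q ∈ T j, 1 / (q : ℝ) ≤ K * √J) →
    Ces (fun j => err b κ0 (T j)) 0 → ∀ w : ℕ → ℕ → ℝ, (∀ j p, 0 ≤ w j p ∧ w j p ≤ 1) →
    ∀ s : ℝ, Tendsto (fun j => ∑ q ∈ T j, w j q * (kap b * (Real.log q / q))) atTop (𝓝 s) →
    ∀ᵐ β : ℝ, (a1 : ℝ) / (b : ℝ) ^ m < β → β ≤ (a2 : ℝ) / (b : ℝ) ^ m →
      Ces (fun j => Phi c (w j) (T j) b (z (j + 1)) (NB b β (z (j + 1)))) (Real.exp (-s)) := by
  classical
  have hb := hOk.hb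
  have hb0 : (0 : ℝ) < b := by positivity
  obtain ⟨κ0, hκ0, hκ1, hE⟩ := EE_mean hFM hOk
  obtain ⟨C1, hC1, P1, hP1⟩ := cell_laplace hTU hRB hOk hκ0 hκ1
  refine ⟨κ0, hκ0, hκ1, fun m a1 a2 h1 h12 => ?_⟩
  obtain ⟨C2, hC2, P2, hP2⟩ := hE m a1 a2 h1 h12
  refine ⟨max P1 P2, fun z hz hz0 T hT K hK herr w hw s hs => ?_⟩
  have hmz : ∀ j, m + a2 ≤ z j := fun j => hz0.trans (hz (Nat.zero_le j))
  have hmz' : ∀ j, m ≤ z j := fun j => (Nat.le_add_right _ _).trans (hmz j)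
  set F : ℕ → ℕ → ℝ := fun j => Phi c (w j) (T j) b (z (j + 1)) with hF
  have hF01 : ∀ j n, 0 ≤ F j n ∧ F j n ≤ 1 := fun j n => Phi_mem (hw j) (T j) b (z (j + 1)) n
  set ss : ℕ → ℝ := fun j => ∑ q ∈ T j, w j q * (kap b * (Real.log q / q)) with hss
  set R : ℕ → ℕ → ℝ := fun j i => (b : ℝ) ^ z j * ∑ q ∈ T j, EE c b κ0 (z j) i q with hR
  have hR0 : ∀ j i, 0 ≤ R j i := fun j i =>
    mul_nonneg (by positivity) (Finset.sum_nonneg fun q _ => EE_nonneg _ _ _ _ _ _)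
  set RR : ℕ → ℕ → ℝ := fun J n => ∑ j ∈ range J, R j (n / b ^ (z J - z j)) with hRR
  have hRR0 : ∀ J n, 0 ≤ RR J n := fun J n => Finset.sum_nonneg fun j _ => hR0 _ _
  set μ := ((a2 : ℝ) - a1) / (b : ℝ) ^ m with hμ
  have hμ0 : 0 ≤ μ := by
    have : (a1 : ℝ) ≤ a2 := by exact_mod_cast h12
    rw [hμ]
    exact div_nonneg (by linarith) (by positivity)
  -- the mean of `R`
  have hRmean : ∀ j, Av b m a1 a2 (z j) (R j) ≤ C2 * ∑ q ∈ T j, 1 / (q : ℝ) := by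
    intro j
    unfold Av
    rw [hR]
    simp only
    rw [← Finset.mul_sum, mul_div_assoc, mul_div_assoc', mul_div_cancel_left₀ _ (by positivity),
      Finset.sum_comm, Finset.mul_sum]
    refine Finset.sum_le_sum fun q hq => ?_
    obtain ⟨h3, h4, h5, h6⟩ := hT j q hq
    exact hP2 q ((le_max_right _ _).trans h3) (z j) (hmz' j) h5
  have hRRmean : ∀ J, Av b m a1 a2 (z J) (RR J) ≤ C2 * (K * √J) := by
    intro J
    rw [hRR]
    simp only
    rw [Av_sum]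
    calc ∑ j ∈ range J, Av b m a1 a2 (z J) (fun n => R j (n / b ^ (z J - z j)))
        = ∑ j ∈ range J, Av b m a1 a2 (z j) (R j) := by
          refine Finset.sum_congr rfl fun j hj => ?_
          exact Av_level hb (hmz' j) (hz (mem_range.1 hj).le) h12 (R j)
      _ ≤ ∑ j ∈ range J, C2 * ∑ q ∈ T j, 1 / (q : ℝ) := Finset.sum_le_sum fun j _ => hRmean j
      _ = C2 * ∑ j ∈ range J, ∑ q ∈ T j, 1 / (q : ℝ) := by rw [Finset.mul_sum]
      _ ≤ _ := mul_le_mul_of_nonneg_left (hK J) hC2.le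
  -- the sizes of the exceptional sets
  set J4 : ℕ → ℕ := fun i => (i + 1) ^ 4 with hJ4
  have hJ4r : ∀ i, ((J4 i : ℕ) : ℝ) = ((i : ℝ) + 1) ^ 4 := fun i => by rw [hJ4]; push_cast; rfl
  have hbad1 : ∀ ε : ℝ, 0 < ε → ∀ᵐ β : ℝ, (a1 : ℝ) / (b : ℝ) ^ m < β →
      β ≤ (a2 : ℝ) / (b : ℝ) ^ m → ∀ᶠ i in atTop, ¬ (ε * J4 i < |SS b z F (J4 i) (NB b β (z (J4 i)))|) := by
    intro ε hε
    refine bc (C := μ / ε ^ 2) hb (t := fun i => z (J4 i)) (fun i => hmz' _)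
      (fun i n => ε * J4 i < |SS b z F (J4 i) n|) fun i => ?_
    have hJpos : (0 : ℝ) < J4 i := by rw [hJ4r]; positivity
    refine (cheb (fun n => SS b z F (J4 i) n) (show 0 < ε * J4 i by positivity)).trans ?_
    have h3 := SS_sq (b := b) (z := z) (F := F) (a1 := a1) (a2 := a2) hb hz (hmz' 0) h12 hF01 (J4 i)
    rw [← hμ] at h3
    calc _ ≤ (J4 i : ℝ) * μ / (ε * J4 i) ^ 2 := div_le_div_of_nonneg_right h3 (by positivity)
      _ = μ / ε ^ 2 / (J4 i : ℝ) := by field_simp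
      _ ≤ μ / ε ^ 2 / ((i : ℝ) + 1) ^ 2 := by
          rw [hJ4r]
          refine div_le_div_of_nonneg_left (by positivity) (by positivity) ?_
          exact pow_le_pow_right₀ (by linarith [(Nat.cast_nonneg i : (0 : ℝ) ≤ i)]) (by norm_num)
  have hbad2 : ∀ ε : ℝ, 0 < ε → ∀ᵐ β : ℝ, (a1 : ℝ) / (b : ℝ) ^ m < β →
      β ≤ (a2 : ℝ) / (b : ℝ) ^ m → ∀ᶠ i in atTop, ¬ (ε * J4 i < RR (J4 i) (NB b β (z (J4 i)))) := by
    intro ε hε
    refine bc (C := C2 * K / ε) hb (t := fun i => z (J4 i)) (fun i => hmz' _)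
      (fun i n => ε * J4 i < RR (J4 i) n) fun i => ?_
    have hJpos : (0 : ℝ) < J4 i := by rw [hJ4r]; positivity
    refine (mark (hRR0 (J4 i)) (show 0 < ε * J4 i by positivity)).trans ?_
    have h3 := hRRmean (J4 i)
    have h4 : √((J4 i : ℕ) : ℝ) = ((i : ℝ) + 1) ^ 2 := by
      rw [hJ4r, show ((i : ℝ) + 1) ^ 4 = (((i : ℝ) + 1) ^ 2) ^ 2 by ring]
      exact Real.sqrt_sq (by positivity)
    rw [h4] at h3
    calc _ ≤ C2 * (K * ((i : ℝ) + 1) ^ 2) / (ε * J4 i) := div_le_div_of_nonneg_right h3 (by positivity)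
      _ = C2 * K / ε / ((i : ℝ) + 1) ^ 2 := by
          rw [hJ4r]
          field_simp
  have hall1 : ∀ᵐ β : ℝ, ∀ k : ℕ, (a1 : ℝ) / (b : ℝ) ^ m < β →
      β ≤ (a2 : ℝ) / (b : ℝ) ^ m → ∀ᶠ i in atTop,
        ¬ (1 / ((k : ℝ) + 1) * J4 i < |SS b z F (J4 i) (NB b β (z (J4 i)))|) :=
    ae_all_iff.2 fun k => hbad1 _ (by positivity)
  have hall2 : ∀ᵐ β : ℝ, ∀ k : ℕ, (a1 : ℝ) / (b : ℝ) ^ m < β →
      β ≤ (a2 : ℝ) / (b : ℝ) ^ m → ∀ᶠ i in atTop,
        ¬ (1 / ((k : ℝ) + 1) * J4 i < RR (J4 i) (NB b β (z (J4 i)))) :=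
    ae_all_iff.2 fun k => hbad2 _ (by positivity)
  filter_upwards [hall1, hall2] with β hβ1 hβ2 hβl hβr
  have hβ : 0 < β := lt_of_le_of_lt (by positivity) hβl
  change Ces (fun j => F j (NB b β (z (j + 1)))) (Real.exp (-s))
  refine ces_quartic (fun j => (hF01 j _).1) ?_
  -- the main inequality
  have hG : ∀ j, |GG b (z j) (z (j + 1)) (F j) (NB b β (z j)) - Real.exp (-ss j)| ≤
      R j (NB b β (z j)) + C1 * err b κ0 (T j) := by
    intro j
    obtain ⟨h3, h4⟩ := NB_range hb hβl hβr (hmz' j)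
    have h5 : 1 ≤ NB b β (z j) := by
      have : 1 ≤ a1 * b ^ (z j - m) := Nat.mul_pos h1 (by positivity)
      omega
    have h6 : NB b β (z j) ≤ b ^ (2 * z j) := by
      have h7 : a2 < b ^ a2 := Nat.lt_pow_self (by omega)
      have h8 : a2 * b ^ (z j - m) ≤ b ^ a2 * b ^ (z j - m) := Nat.mul_le_mul_right _ h7.le
      have h9 : b ^ a2 * b ^ (z j - m) ≤ b ^ (2 * z j) := by
        rw [← pow_add]
        have := hmz j
        exact Nat.pow_le_pow_right (by omega) (by omega)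
      omega
    have h7 := hP1 (z j) (NB b β (z j)) (z (j + 1)) h5 h6 (hz (Nat.le_succ j)) (T j)
      (fun p hp => by
        obtain ⟨h3, h4, h5, h6⟩ := hT j p hp
        exact ⟨(le_max_left _ _).trans h3, h4, h5, h6⟩) (w j) (hw j)
    unfold GG
    rw [hR]
    simp only
    have e1 : (b : ℝ) ^ z j * Av b (z j) (NB b β (z j)) (NB b β (z j) + 1) (z (j + 1)) (F j) -
        Real.exp (-ss j) = (b : ℝ) ^ z j * (Av b (z j) (NB b β (z j)) (NB b β (z j) + 1) (z (j + 1)) (F j) -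
          1 / (b : ℝ) ^ z j * Real.exp (-ss j)) := by
      field_simp
    rw [e1, abs_mul, abs_of_nonneg (show (0 : ℝ) ≤ (b : ℝ) ^ z j by positivity)]
    calc _ ≤ (b : ℝ) ^ z j * (∑ q ∈ T j, EE c b κ0 (z j) (NB b β (z j)) q +
          1 / (b : ℝ) ^ z j * (C1 * err b κ0 (T j))) :=
          mul_le_mul_of_nonneg_left h7 (by positivity)
      _ = _ := by field_simp
  have hS : ∀ J, SS b z F J (NB b β (z J)) = ∑ j ∈ range J, (F j (NB b β (z (j + 1))) -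
      GG b (z j) (z (j + 1)) (F j) (NB b β (z j))) := by
    intro J
    unfold SS DD
    refine Finset.sum_congr rfl fun j hj => ?_
    rw [mem_range] at hj
    rw [NB_div hb hβ (hz (by omega : j + 1 ≤ J)), NB_div hb hβ (hz (Nat.le_succ j))]
  have hRRβ : ∀ J, RR J (NB b β (z J)) = ∑ j ∈ range J, R j (NB b β (z j)) := by
    intro J
    rw [hRR]
    refine Finset.sum_congr rfl fun j hj => ?_
    rw [NB_div hb hβ (hz (mem_range.1 hj).le)]
  have hkey : ∀ J, |∑ j ∈ range J, F j (NB b β (z (j + 1))) - ∑ j ∈ range J, Real.exp (-ss j)| ≤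
      |SS b z F J (NB b β (z J))| + RR J (NB b β (z J)) + C1 * ∑ j ∈ range J, err b κ0 (T j) := by
    intro J
    have e1 : ∑ j ∈ range J, F j (NB b β (z (j + 1))) - ∑ j ∈ range J, Real.exp (-ss j) =
        SS b z F J (NB b β (z J)) + ∑ j ∈ range J, (GG b (z j) (z (j + 1)) (F j) (NB b β (z j)) -
          Real.exp (-ss j)) := by
      rw [hS, ← Finset.sum_add_distrib, ← Finset.sum_sub_distrib]
      exact Finset.sum_congr rfl fun j _ => by ring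
    rw [e1, add_assoc, hRRβ, Finset.mul_sum, ← Finset.sum_add_distrib]
    refine (abs_add_le _ _).trans (add_le_add le_rfl ?_)
    exact (Finset.abs_sum_le_sum_abs _ _).trans (Finset.sum_le_sum fun j _ => hG j)
  -- the limit
  have hexp : Ces (fun j => Real.exp (-ss j)) (Real.exp (-s)) :=
    ces_of_tendsto ((Real.continuous_exp.tendsto _).comp hs.neg)
  have hJ4t : Tendsto J4 atTop atTop := by
    refine tendsto_atTop_mono (fun i => ?_) tendsto_id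
    simp only [id, hJ4]
    calc i ≤ i + 1 := Nat.le_succ i
      _ = (i + 1) ^ 1 := (pow_one _).symm
      _ ≤ (i + 1) ^ 4 := Nat.pow_le_pow_right (by omega) (by norm_num)
  have hexp4 := Filter.Tendsto.comp hexp hJ4t
  have herr4 := Filter.Tendsto.comp (herr.mul_left C1) hJ4t
  rw [mul_zero] at herr4
  have hdiff : Tendsto (fun i => (∑ j ∈ range (J4 i), F j (NB b β (z (j + 1)))) / ((J4 i : ℕ) : ℝ) -
      (∑ j ∈ range (J4 i), Real.exp (-ss j)) / ((J4 i : ℕ) : ℝ)) atTop (𝓝 0) := by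
    rw [Metric.tendsto_nhds]
    intro ε hε
    obtain ⟨k, hk⟩ := exists_nat_one_div_lt (show 0 < ε / 4 by positivity)
    filter_upwards [hβ1 k hβl hβr, hβ2 k hβl hβr,
      (Metric.tendsto_nhds.1 herr4) (ε / 4) (by positivity)] with i hi1 hi2 hi3
    have hJpos : (0 : ℝ) < J4 i := by rw [hJ4r]; positivity
    push Not at hi1 hi2
    rw [Real.dist_eq, sub_zero] at hi3 ⊢
    rw [← sub_div, abs_div, abs_of_pos hJpos, div_lt_iff₀ hJpos]
    have h3 := hkey (J4 i)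
    have h4 : C1 * ∑ j ∈ range (J4 i), err b κ0 (T j) < ε / 4 * J4 i := by
      have h5 := (le_abs_self _).trans_lt hi3
      simp only [Function.comp] at h5
      rw [← Finset.mul_sum, div_lt_iff₀ hJpos] at h5
      exact h5
    have h5 : 1 / ((k : ℝ) + 1) * J4 i < ε / 4 * J4 i := mul_lt_mul_of_pos_right hk hJpos
    have h6 : 0 < ε * (J4 i : ℝ) := mul_pos hε hJpos
    have e5 : ε / 4 * (J4 i : ℝ) = (ε * J4 i) / 4 := by ring
    rw [e5] at h4 h5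
    linarith
  have h := hdiff.add hexp4
  simp only [zero_add] at h
  refine h.congr fun i => ?_
  simp only [Function.comp]
  ring

end Run7.h854.PQ
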