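import Mathlib
import Pool.Agent.Run7.h854.PQ.Ces

set_option autoImplicit false

/-!
# Windows of a thin set, in the time scale of its weight
-/

namespace Run7.h854.PQ

open Finset Filter Topology

open Classical in
/-- the weight of the elements of `S` up to `n` -/
noncomputable def V (S : Set ℕ) (n : ℕ) : ℝ :=
  ∑ p ∈ (range (n + 1)).filter (fun p => p ∈ S), Real.log p / (p : ℝ)

lemma lgn (p : ℕ) : 0 ≤ Real.log p / (p : ℝ) :=
  div_nonneg (Real.log_natCast_nonneg p) (Nat.cast_nonneg p)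

lemma V_mono (S : Set ℕ) : Monotone (V S) := by
  classical
  intro m n hmn
  unfold V
  refine Finset.sum_le_sum_of_subset_of_nonneg ?_ fun p _ _ => lgn p
  exact Finset.filter_subset_filter _ (Finset.range_mono (by omega))

lemma V_nonneg (S : Set ℕ) (n : ℕ) : 0 ≤ V S n := by
  classical
  unfold V
  exact Finset.sum_nonneg fun p _ => lgn p

lemma V_zero (S : Set ℕ) : V S 0 = 0 := by
  classical
  unfold V
  refine Finset.sum_eq_zero fun p hp => ?_
  rw [mem_filter, mem_range] at hp
  have : p = 0 := by omega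
  rw [this]
  simp

lemma V_succ (S : Set ℕ) (n : ℕ) : V S (n + 1) ≤ V S n + Real.log ((n + 1 : ℕ) : ℝ) / ((n + 1 : ℕ) : ℝ) := by
  classical
  unfold V
  rw [Finset.range_add_one (n := n + 1), Finset.filter_insert]
  split_ifs with h
  · rw [Finset.sum_insert (by
      rw [mem_filter, mem_range]
      omega)]
    linarith
  · have := lgn (n + 1)
    linarith

/-- the sum over an interval -/
lemma V_Ico (S : Set ℕ) {m n : ℕ} (h : m ≤ n) (T : Finset ℕ) (hT : ∀ p ∈ T, p ∈ S ∧ m < p ∧ p ≤ n) :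
    ∑ p ∈ T, Real.log p / (p : ℝ) ≤ V S n - V S m := by
  classical
  have h1 : ∑ p ∈ T, Real.log p / (p : ℝ) + V S m ≤ V S n := by
    unfold V
    rw [← Finset.sum_union]
    · refine Finset.sum_le_sum_of_subset_of_nonneg ?_ fun p _ _ => lgn p
      intro p hp
      rw [mem_union] at hp
      rw [mem_filter, mem_range]
      rcases hp with hp | hp
      · obtain ⟨h1, h2, h3⟩ := hT p hp
        exact ⟨by omega, h1⟩
      · rw [mem_filter, mem_range] at hp
        exact ⟨by omega, hp.2⟩
    · rw [Finset.disjoint_left]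
      intro p hp hp'
      rw [mem_filter, mem_range] at hp'
      have := (hT p hp).2.1
      omega
  linarith

lemma sum_le_V (S : Set ℕ) (n : ℕ) (T : Finset ℕ) (hT : ∀ p ∈ T, p ∈ S ∧ p ≤ n) :
    ∑ p ∈ T, Real.log p / (p : ℝ) ≤ V S n := by
  classical
  unfold V
  refine Finset.sum_le_sum_of_subset_of_nonneg ?_ fun p _ _ => lgn p
  intro p hp
  obtain ⟨h1, h2⟩ := hT p hp
  rw [mem_filter, mem_range]
  exact ⟨by omega, h1⟩

lemma log_div_tendsto : Tendsto (fun n : ℕ => Real.log n / (n : ℝ)) atTop (𝓝 0) := by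
  have h1 := (Real.isLittleO_pow_log_id_atTop (n := 1)).tendsto_div_nhds_zero
  have h2 := h1.comp tendsto_natCast_atTop_atTop
  refine h2.congr fun q => ?_
  simp

/-- the set is thin -/
structure IsThin (S : Set ℕ) : Prop where
  inf : Tendsto (V S) atTop atTop
  thin : Tendsto (fun n => V S (2 * n) - V S n) atTop (𝓝 0)
  pairs : ∀ h : ℕ, 1 ≤ h → Tendsto (fun n => V {p | p ∈ S ∧ p + h ∈ S} n / V S n) atTop (𝓝 0)

lemma thin_pow {S : Set ℕ} (hS : IsThin S) (k : ℕ) :
    Tendsto (fun n => V S (2 ^ k * n) - V S n) atTop (𝓝 0) := by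
  induction k with
  | zero => simp
  | succ k ih =>
    have h1 : Tendsto (fun n : ℕ => 2 ^ k * n) atTop atTop :=
      tendsto_id.const_mul_atTop' (by positivity)
    have h2 := (hS.thin.comp h1).add ih
    rw [add_zero] at h2
    refine h2.congr fun n => ?_
    simp only [Function.comp]
    have : 2 * (2 ^ k * n) = 2 ^ (k + 1) * n := by ring
    rw [this]
    ring

lemma thin_mul {S : Set ℕ} (hS : IsThin S) {K : ℕ} (hK : 1 ≤ K) :
    Tendsto (fun n => V S (K * n) - V S n) atTop (𝓝 0) := by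
  refine squeeze_zero (fun n => ?_) (fun n => ?_) (thin_pow hS K)
  · have := V_mono S (show n ≤ K * n from Nat.le_mul_of_pos_left n hK)
    linarith
  · have h1 : K ≤ 2 ^ K := Nat.lt_two_pow_self.le
    have := V_mono S (Nat.mul_le_mul_right n h1)
    linarith

/-- the weight of the elements a little smaller than `q` -/
lemma near_weight {S : Set ℕ} (hS : IsThin S) {κ0 : ℝ} (hκ0 : 0 < κ0) {ε : ℝ} (hε : 0 < ε) :
    ∀ᶠ q : ℕ in atTop, ∀ T : Finset ℕ, (∀ p ∈ T, p ∈ S) →
      ∑ p ∈ T.filter (fun p : ℕ => κ0 * q < p ∧ p < q), Real.log p / (p : ℝ) ≤ ε := by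
  obtain ⟨K, hK⟩ := exists_nat_ge (2 / κ0)
  have hK0 : (0 : ℝ) < K := (by positivity : (0 : ℝ) < 2 / κ0).trans_le hK
  have hK1 : 1 ≤ K := by exact_mod_cast hK0
  have h1 : Tendsto (fun q : ℕ => ⌊κ0 * (q : ℝ)⌋₊) atTop atTop :=
    tendsto_nat_floor_atTop.comp (tendsto_natCast_atTop_atTop.const_mul_atTop hκ0)
  have h2 := (thin_mul hS hK1).comp h1
  filter_upwards [h2.eventually_lt_const hε, eventually_ge_atTop K] with q hq hqK T hT
  simp only [Function.comp] at hq
  set y := ⌊κ0 * (q : ℝ)⌋₊ with hy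
  have hy2 : κ0 * q < y + 1 := Nat.lt_floor_add_one _
  have hqKr : (K : ℝ) ≤ q := by exact_mod_cast hqK
  have hq0 : (0 : ℝ) < q := hK0.trans_le hqKr
  have h3 : (2 : ℝ) ≤ κ0 * K := by
    rw [div_le_iff₀ hκ0] at hK
    linarith
  have h5 : (1 : ℝ) ≤ y := by
    have h6 : (2 : ℝ) ≤ κ0 * q := h3.trans (mul_le_mul_of_nonneg_left hqKr hκ0.le)
    have h7 : (0 : ℝ) < y := by linarith
    have h8 : 0 < y := by exact_mod_cast h7
    exact_mod_cast h8
  have h4 : q ≤ K * y := by
    have h6 : (q : ℝ) ≤ (K : ℝ) * y := by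
      have h7 : κ0 * q ≤ 2 * y := by linarith
      have h8 : (q : ℝ) ≤ 2 / κ0 * y := by
        rw [div_mul_eq_mul_div, le_div_iff₀ hκ0]
        linarith
      exact h8.trans (mul_le_mul_of_nonneg_right hK (by linarith))
    exact_mod_cast h6
  refine le_trans (V_Ico S (show y ≤ K * y from Nat.le_mul_of_pos_left y hK1) _ fun p hp => ?_) hq.le
  rw [mem_filter] at hp
  obtain ⟨h6, h7, h8⟩ := hp
  refine ⟨hT p h6, ?_, by omega⟩
  have h9 : (y : ℝ) < p := (Nat.floor_le (by positivity)).trans_lt h7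
  exact_mod_cast h9

section
variable (κ : ℝ) (S : Set ℕ)

/-- the first level after the time `x` -/
noncomputable def lev (x : ℝ) : ℕ := sInf {n | x < κ * V S n}

open Classical in
/-- the elements of `S` between the times `x` and `y` -/
noncomputable def win (x y : ℝ) : Finset ℕ := (Ico (lev κ S x) (lev κ S y)).filter (fun p => p ∈ S)

variable {κ S}

lemma lev_le_iff (hκ : 0 < κ) (hS : Tendsto (V S) atTop atTop) (x : ℝ) (p : ℕ) :
    lev κ S x ≤ p ↔ x < κ * V S p := by
  have hne : {n | x < κ * V S n}.Nonempty := by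
    obtain ⟨n, hn⟩ := (hS.eventually_gt_atTop (x / κ)).exists
    refine ⟨n, ?_⟩
    rw [Set.mem_ofPred_eq]
    rw [div_lt_iff₀ hκ] at hn
    linarith
  constructor
  · intro h
    have h1 : lev κ S x ∈ {n | x < κ * V S n} := Nat.sInf_mem hne
    rw [Set.mem_ofPred_eq] at h1
    exact h1.trans_le (mul_le_mul_of_nonneg_left (V_mono S h) hκ.le)
  · intro h
    exact Nat.sInf_le h

lemma mem_win (hκ : 0 < κ) (hS : Tendsto (V S) atTop atTop) {x y : ℝ} {p : ℕ} :
    p ∈ win κ S x y ↔ p ∈ S ∧ x < κ * V S p ∧ κ * V S p ≤ y := by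
  classical
  unfold win
  rw [mem_filter, mem_Ico, lev_le_iff hκ hS, ← not_le (a := lev κ S y), lev_le_iff hκ hS, not_lt]
  tauto

lemma lev_mono (hκ : 0 < κ) (hS : Tendsto (V S) atTop atTop) : Monotone (lev κ S) := by
  intro x y hxy
  rw [lev_le_iff hκ hS]
  exact hxy.trans_lt ((lev_le_iff hκ hS y _).1 le_rfl)

lemma lev_large (hκ : 0 < κ) (hS : Tendsto (V S) atTop atTop) :
    Tendsto (lev κ S) atTop atTop := by
  rw [tendsto_atTop]
  intro N
  filter_upwards [eventually_ge_atTop (κ * V S N)] with x hx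
  by_contra h
  push Not at h
  have h1 := (lev_le_iff hκ hS x N).1 h.le
  linarith

/-- the weight of a window -/
lemma win_weight (hκ : 0 < κ) (hS : Tendsto (V S) atTop atTop) {x y : ℝ} (hx : 0 ≤ x) (hxy : x ≤ y) :
    |κ * ∑ p ∈ win κ S x y, Real.log p / (p : ℝ) - (y - x)| ≤
      κ * (Real.log (lev κ S x) / (lev κ S x : ℝ)) + κ * (Real.log (lev κ S y) / (lev κ S y : ℝ)) := by
  classical
  have hpos : ∀ u : ℝ, 0 ≤ u → 1 ≤ lev κ S u := by
    intro u hu
    by_contra h
    push Not at h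
    have h0 : lev κ S u ≤ 0 := by omega
    rw [lev_le_iff hκ hS, V_zero, mul_zero] at h0
    linarith
  have hb : ∀ u : ℝ, 0 ≤ u → κ * V S (lev κ S u - 1) ≤ u ∧
      u < κ * V S (lev κ S u - 1) + κ * (Real.log (lev κ S u) / (lev κ S u : ℝ)) := by
    intro u hu
    have h1 := hpos u hu
    constructor
    · by_contra h
      push Not at h
      have h2 := (lev_le_iff hκ hS u _).2 h
      omega
    · have h2 := (lev_le_iff hκ hS u (lev κ S u)).1 le_rfl
      have h3 := V_succ S (lev κ S u - 1)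
      have h4 : lev κ S u - 1 + 1 = lev κ S u := by omega
      rw [h4] at h3
      nlinarith
  have h1 := hpos x hx
  have h2 : lev κ S x ≤ lev κ S y := lev_mono hκ hS hxy
  have e1 : ∑ p ∈ win κ S x y, Real.log p / (p : ℝ) = V S (lev κ S y - 1) - V S (lev κ S x - 1) := by
    unfold win V
    rw [eq_sub_iff_add_eq, ← Finset.sum_union]
    · refine Finset.sum_congr ?_ fun _ _ => rfl
      ext p
      rw [mem_union, mem_filter, mem_filter, mem_filter, mem_Ico, mem_range, mem_range]
      constructor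
      · rintro (⟨h3, h4⟩ | ⟨h3, h4⟩)
        · exact ⟨by omega, h4⟩
        · exact ⟨by omega, h4⟩
      · rintro ⟨h3, h4⟩
        rcases lt_or_ge p (lev κ S x) with h | h
        · exact Or.inr ⟨by omega, h4⟩
        · exact Or.inl ⟨⟨h, by omega⟩, h4⟩
    · rw [Finset.disjoint_left]
      intro p hp hp'
      rw [mem_filter, mem_Ico] at hp
      rw [mem_filter, mem_range] at hp'
      omega
  obtain ⟨h3, h4⟩ := hb x hx
  obtain ⟨h5, h6⟩ := hb y (hx.trans hxy)
  rw [e1, abs_le]
  constructor <;> nlinarith [mul_nonneg hκ.le (lgn (lev κ S x)), mul_nonneg hκ.le (lgn (lev κ S y))]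

/-- the weight of a window far away -/
lemma win_tendsto (hκ : 0 < κ) (hS : Tendsto (V S) atTop atTop) {x : ℕ → ℝ}
    (hx : Tendsto x atTop atTop) {α α' : ℝ} (hα : α ≤ α') :
    Tendsto (fun j => κ * ∑ p ∈ win κ S (x j + α) (x j + α'), Real.log p / (p : ℝ)) atTop
      (𝓝 (α' - α)) := by
  have h1 : ∀ u : ℝ, Tendsto (fun j => κ * (Real.log (lev κ S (x j + u)) / (lev κ S (x j + u) : ℝ)))
      atTop (𝓝 0) := by
    intro u
    have h2 : Tendsto (fun j => lev κ S (x j + u)) atTop atTop :=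
      (lev_large hκ hS).comp (tendsto_atTop_add_const_right _ _ hx)
    have h3 := (log_div_tendsto.comp h2).const_mul κ
    rw [mul_zero] at h3
    exact h3
  have h2 := (h1 α).add (h1 α')
  rw [add_zero] at h2
  have h3 : Tendsto (fun j => κ * ∑ p ∈ win κ S (x j + α) (x j + α'), Real.log p / (p : ℝ) - (α' - α))
      atTop (𝓝 0) := by
    refine squeeze_zero_norm' ?_ h2
    filter_upwards [hx.eventually_ge_atTop (-α)] with j hj
    rw [Real.norm_eq_abs]
    have h4 := win_weight (κ := κ) hκ hS (x := x j + α) (y := x j + α') (by linarith) (by linarith)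
    have e : x j + α' - (x j + α) = α' - α := by ring
    rw [e] at h4
    exact h4
  have h4 := h3.add_const (α' - α)
  simp only [sub_add_cancel, zero_add] at h4
  exact h4

/-- the levels grow fast -/
lemma lev_grow (hκ : 0 < κ) (hS : IsThin S) {K : ℕ} (hK : 1 ≤ K) {δ : ℝ} (hδ : 0 < δ) :
    ∀ᶠ x : ℝ in atTop, K * lev κ S (x - δ) ≤ lev κ S x := by
  have h1 : Tendsto (fun x : ℝ => lev κ S (x - δ)) atTop atTop := by
    have h2 : Tendsto (fun x : ℝ => x + -δ) atTop atTop :=
      tendsto_atTop_add_const_right atTop (-δ) tendsto_id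
    simp only [← sub_eq_add_neg] at h2
    exact (lev_large hκ hS.inf).comp h2
  have h2 := (((thin_mul hS hK).add log_div_tendsto).comp h1)
  rw [add_zero] at h2
  filter_upwards [h2.eventually_lt_const (show 0 < δ / κ by positivity), h1.eventually_ge_atTop 1]
    with x hx h3
  simp only [Function.comp] at hx
  set n := lev κ S (x - δ) with hn
  by_contra h
  push Not at h
  have h4 : x < κ * V S (K * n) := (lev_le_iff hκ hS.inf x _).1 h.le
  have h5 : κ * V S (n - 1) ≤ x - δ := by
    by_contra h6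
    push Not at h6
    have h7 := (lev_le_iff hκ hS.inf (x - δ) _).2 h6
    omega
  have h6 := V_succ S (n - 1)
  have h7 : n - 1 + 1 = n := by omega
  rw [h7] at h6
  have h8 : κ * (V S (K * n) - V S n + Real.log n / (n : ℝ)) < δ := by
    rw [lt_div_iff₀ hκ] at hx
    linarith
  nlinarith

end

/-- the sum of the inverses -/
lemma inv_sum {S : Set ℕ} (T : Finset ℕ) (n : ℕ) (hT : ∀ p ∈ T, p ∈ S ∧ 1 ≤ p ∧ p ≤ n) {y : ℝ}
    (hy : 0 < y) : ∑ q ∈ T, 1 / (q : ℝ) ≤ 1 + y + V S n / y := by
  classical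
  rw [← Finset.sum_filter_add_sum_filter_not T (fun q : ℕ => (q : ℝ) ≤ Real.exp y)]
  refine add_le_add ?_ ?_
  · set N := ⌊Real.exp y⌋₊ with hN
    have hN1 : 1 ≤ N := Nat.le_floor (by
      push_cast
      exact Real.one_le_exp hy.le)
    calc ∑ q ∈ T.filter (fun q : ℕ => (q : ℝ) ≤ Real.exp y), 1 / (q : ℝ)
        ≤ ∑ q ∈ Icc 1 N, 1 / (q : ℝ) := by
          refine Finset.sum_le_sum_of_subset_of_nonneg ?_ fun q _ _ => by positivity
          intro q hq
          rw [mem_filter] at hq
          rw [mem_Icc]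
          exact ⟨(hT q hq.1).2.1, Nat.le_floor hq.2⟩
      _ ≤ 1 + Real.log N := by
          have h1 := harmonic_le_one_add_log N
          rw [harmonic_eq_sum_Icc] at h1
          push_cast at h1
          simpa [one_div] using h1
      _ ≤ 1 + y := by
          have h2 : Real.log N ≤ y := by
            rw [← Real.log_exp y]
            exact Real.log_le_log (by exact_mod_cast hN1) (Nat.floor_le (Real.exp_pos _).le)
          linarith
  · rw [le_div_iff₀ hy, Finset.sum_mul]
    calc ∑ q ∈ T.filter (fun q : ℕ => ¬ (q : ℝ) ≤ Real.exp y), 1 / (q : ℝ) * y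
        ≤ ∑ q ∈ T.filter (fun q : ℕ => ¬ (q : ℝ) ≤ Real.exp y), Real.log q / (q : ℝ) := by
          refine Finset.sum_le_sum fun q hq => ?_
          rw [mem_filter, not_le] at hq
          have hq0 : (0 : ℝ) < q := (Real.exp_pos y).trans hq.2
          rw [one_div_mul_eq_div]
          refine div_le_div_of_nonneg_right ?_ hq0.le
          rw [Real.le_log_iff_exp_le hq0]
          exact hq.2.le
      _ ≤ V S n := by
          unfold V
          refine Finset.sum_le_sum_of_subset_of_nonneg ?_ fun p _ _ => lgn p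
          intro q hq
          rw [mem_filter] at hq
          rw [mem_filter, mem_range]
          obtain ⟨h1, h2, h3⟩ := hT q hq.1
          exact ⟨by omega, h1⟩

end Run7.h854.PQ
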