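import Mathlib
import Pool.Agent.Run7.h854.PQ.Ces
import Pool.Agent.Run7.h854.PO.Err

set_option autoImplicit false

/-!
# From generating functions to frequencies
-/

namespace Run7.h854.PQ

open Finset Filter Topology
open Run7.h854.PO

/-- the arguments of the generating functions -/
noncomputable def th (n : ℕ) : ℝ := 1 / ((n : ℝ) + 1)

lemma th_pos (n : ℕ) : 0 < th n := by unfold th; positivity

lemma th_le (n : ℕ) : th n ≤ 1 := by
  unfold th
  rw [div_le_one (by positivity)]
  linarith [(Nat.cast_nonneg n : (0 : ℝ) ≤ n)]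

lemma th_zero : th 0 = 1 := by unfold th; simp

/-- the continuity theorem, for the arguments `th n` -/
theorem cont_gf' (f : ℕ → ℕ → ℝ) (G : ℕ → ℝ → ℝ) (μ lam : ℝ) (hlam : 0 ≤ lam) (hμ : 0 ≤ μ)
    (hf : ∀ n k, 0 ≤ f n k)
    (hG : ∀ n θ, 0 ≤ θ → θ ≤ 1 → HasSum (fun k => f n k * θ ^ k) (G n θ))
    (hlim : ∀ e : ℕ, Tendsto (fun n => G n (th e)) atTop (𝓝 (μ * Real.exp (-(lam * (1 - th e))))))
    (k : ℕ) : Tendsto (fun n => f n k) atTop (𝓝 (μ * (Real.exp (-lam) * lam ^ k / k.factorial))) := by
  set ρ : ℕ → ℝ := fun k => μ * (Real.exp (-lam) * lam ^ k / k.factorial) with hρ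
  have hρ0 : ∀ k, 0 ≤ ρ k := fun k => by rw [hρ]; positivity
  have hρs : ∀ θ, HasSum (fun k => ρ k * θ ^ k) (μ * Real.exp (-(lam * (1 - θ)))) :=
    fun θ => hasSum_poisson μ lam θ
  change Tendsto (fun n => f n k) atTop (𝓝 (ρ k))
  induction k using Nat.strong_induction_on with
  | _ k ih =>
    have hρ1 : μ * Real.exp (-(lam * (1 - 1))) = μ := by simp
    have hlim1 : Tendsto (fun n => G n 1) atTop (𝓝 μ) := by
      have := hlim 0
      rwa [th_zero, hρ1] at this
    rw [Metric.tendsto_nhds]
    intro ε hε
    -- choose θ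
    obtain ⟨e, he⟩ := exists_nat_one_div_lt (show 0 < ε / (2 * (2 * μ + 1)) by positivity)
    set θ := th e with hθdef
    have hθ0 : 0 < θ := th_pos e
    have hθ1 : θ ≤ 1 := th_le e
    have hθ : θ * (2 * μ + 1) ≤ ε / 2 := by
      calc θ * (2 * μ + 1) ≤ ε / (2 * (2 * μ + 1)) * (2 * μ + 1) :=
            mul_le_mul_of_nonneg_right he.le (by positivity)
        _ = ε / 2 := by field_simp
    have hpos : 0 < θ ^ k := pow_pos hθ0 k
    have h1 : Tendsto (fun n => G n θ - ∑ l ∈ range k, f n l * θ ^ l) atTop
        (𝓝 (μ * Real.exp (-(lam * (1 - θ))) - ∑ l ∈ range k, ρ l * θ ^ l)) := by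
      refine (hlim e).sub (tendsto_finsetSum _ fun l hl => ?_)
      exact (ih l (mem_range.1 hl)).mul_const _
    have h2 := (Metric.tendsto_nhds.1 h1) (θ ^ k * (ε / 4)) (by positivity)
    have h3 := hlim1.eventually_lt_const (show μ < μ + 1 by linarith)
    filter_upwards [h2, h3] with n h2 h3
    obtain ⟨h4, h5⟩ := coef_bound (hf n) hθ0.le hθ1 (hG n 1 zero_le_one le_rfl) (hG n θ hθ0.le hθ1) k
    obtain ⟨h6, h7⟩ := coef_bound hρ0 hθ0.le hθ1 (hρs 1) (hρs θ) k
    rw [hρ1] at h7
    rw [Real.dist_eq] at h2 ⊢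
    set X := G n θ - ∑ l ∈ range k, f n l * θ ^ l with hX
    set Z := μ * Real.exp (-(lam * (1 - θ))) - ∑ l ∈ range k, ρ l * θ ^ l with hZ
    have h8 : |f n k - ρ k| * θ ^ k ≤ θ ^ k * (ε / 4) + θ ^ k * (θ * (2 * μ + 1)) := by
      rw [← abs_of_nonneg hpos.le, ← abs_mul, abs_of_nonneg hpos.le]
      rw [abs_lt] at h2
      have e1 : θ ^ (k + 1) = θ ^ k * θ := pow_succ _ _
      rw [e1] at h5 h7
      have h9 : θ ^ k * θ * G n 1 ≤ θ ^ k * θ * (μ + 1) :=
        mul_le_mul_of_nonneg_left h3.le (by positivity)
      have h10 : 0 ≤ θ ^ k * θ * μ := by positivity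
      have h11 : 0 ≤ θ ^ k * θ := by positivity
      rw [abs_le]
      constructor <;> nlinarith
    have h9 : |f n k - ρ k| ≤ ε / 4 + θ * (2 * μ + 1) := by
      have e2 : θ ^ k * (ε / 4) + θ ^ k * (θ * (2 * μ + 1)) = (ε / 4 + θ * (2 * μ + 1)) * θ ^ k := by ring
      rw [e2] at h8
      exact le_of_mul_le_mul_right h8 hpos
    linarith

/-- the factor of the mixed generating function -/
noncomputable def fc {R : ℕ} (N : Fin R → ℕ) (D : Finset (Fin R)) (e k : Fin R → ℕ) (s : Fin R) : ℝ :=
  if s ∈ D then (if N s = k s then 1 else 0) else th (e s) ^ N s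

/-- its limit -/
noncomputable def lc {R : ℕ} (lam : Fin R → ℝ) (D : Finset (Fin R)) (e k : Fin R → ℕ) (s : Fin R) : ℝ :=
  if s ∈ D then Real.exp (-lam s) * lam s ^ k s / (k s).factorial
    else Real.exp (-(lam s * (1 - th (e s))))

theorem mixed {R : ℕ} {N : ℕ → Fin R → ℕ} {lam : Fin R → ℝ} (hlam : ∀ s, 0 ≤ lam s)
    (h : ∀ e : Fin R → ℕ, Ces (fun j => ∏ s, th (e s) ^ N j s)
      (Real.exp (-(∑ s, (1 - th (e s)) * lam s)))) (D : Finset (Fin R)) :
    ∀ e k : Fin R → ℕ, Ces (fun j => ∏ s, fc (N j) D e k s) (∏ s, lc lam D e k s) := by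
  classical
  induction D using Finset.induction_on with
  | empty =>
    intro e k
    have e1 : ∏ s, lc lam ∅ e k s = Real.exp (-(∑ s, (1 - th (e s)) * lam s)) := by
      unfold lc
      simp only [notMem_empty, if_false]
      rw [← Real.exp_sum, Finset.sum_neg_distrib]
      congr 2
      exact Finset.sum_congr rfl fun s _ => mul_comm _ _
    rw [e1]
    refine (h e).congr fun j => ?_
    unfold fc
    simp only [notMem_empty, if_false]
  | insert s0 D hs0 ih =>
    intro e k
    set Q : ℕ → ℝ := fun j => ∏ s ∈ univ.erase s0, fc (N j) D e k s with hQ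
    have hQ0 : ∀ j, 0 ≤ Q j := by
      intro j
      rw [hQ]
      refine Finset.prod_nonneg fun s _ => ?_
      unfold fc
      split_ifs
      · norm_num
      · norm_num
      · exact pow_nonneg (th_pos _).le _
    set μ := ∏ s ∈ univ.erase s0, lc lam D e k s with hμ
    have hμ0 : 0 ≤ μ := by
      rw [hμ]
      refine Finset.prod_nonneg fun s _ => ?_
      unfold lc
      have := hlam s
      split_ifs <;> positivity
    have hcont := cont_gf'
      (fun n i => (∑ j ∈ range n, (if N j s0 = i then (1 : ℝ) else 0) * Q j) / (n : ℝ))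
      (fun n ϑ => (∑ j ∈ range n, ϑ ^ (N j s0) * Q j) / (n : ℝ)) μ (lam s0) (hlam s0) hμ0
      (fun n i => div_nonneg (Finset.sum_nonneg fun j _ =>
        mul_nonneg (by split_ifs <;> norm_num) (hQ0 j)) (Nat.cast_nonneg n))
      (fun n ϑ hϑ0 hϑ1 => ?_) (fun e0 => ?_) (k s0)
    · -- the conclusion
      have e1 : ∀ j, ∏ s, fc (N j) (insert s0 D) e k s =
          (if N j s0 = k s0 then (1 : ℝ) else 0) * Q j := by
        intro j
        rw [← Finset.mul_prod_erase univ _ (mem_univ s0)]
        congr 1
        · unfold fc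
          rw [if_pos (mem_insert_self _ _)]
        · refine Finset.prod_congr rfl fun s hs => ?_
          have hss : s ≠ s0 := (mem_erase.1 hs).1
          unfold fc
          by_cases hsD : s ∈ D
          · rw [if_pos hsD, if_pos (mem_insert_of_mem hsD)]
          · rw [if_neg hsD, if_neg (by
              rw [mem_insert]
              push Not
              exact ⟨hss, hsD⟩)]
      have e2 : ∏ s, lc lam (insert s0 D) e k s =
          μ * (Real.exp (-lam s0) * lam s0 ^ (k s0) / (k s0).factorial) := by
        rw [← Finset.mul_prod_erase univ _ (mem_univ s0), hμ]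
        have e3 : lc lam (insert s0 D) e k s0 =
            Real.exp (-lam s0) * lam s0 ^ (k s0) / (k s0).factorial := by
          unfold lc
          rw [if_pos (mem_insert_self _ _)]
        have e4 : ∏ s ∈ univ.erase s0, lc lam (insert s0 D) e k s =
            ∏ s ∈ univ.erase s0, lc lam D e k s := by
          refine Finset.prod_congr rfl fun s hs => ?_
          have hss : s ≠ s0 := (mem_erase.1 hs).1
          unfold lc
          by_cases hsD : s ∈ D
          · rw [if_pos hsD, if_pos (mem_insert_of_mem hsD)]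
          · rw [if_neg hsD, if_neg (by
              rw [mem_insert]
              push Not
              exact ⟨hss, hsD⟩)]
        rw [e3, e4]
        ring
      rw [e2]
      unfold Ces
      refine hcont.congr fun n => ?_
      congr 1
      exact Finset.sum_congr rfl fun j _ => (e1 j).symm
    · -- the generating function
      have h2 : HasSum (fun i => ∑ j ∈ range n,
          (if N j s0 = i then (1 : ℝ) else 0) * Q j * ϑ ^ i)
          (∑ j ∈ range n, ϑ ^ (N j s0) * Q j) := by
        refine hasSum_sum fun j _ => ?_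
        have h3 := hasSum_ite_eq (N j s0) (ϑ ^ (N j s0) * Q j)
        have h4 : (fun i => (if N j s0 = i then (1 : ℝ) else 0) * Q j * ϑ ^ i) =
            fun i => if i = N j s0 then ϑ ^ (N j s0) * Q j else 0 := by
          funext i
          by_cases hi : i = N j s0
          · rw [if_pos hi, if_pos hi.symm, hi]
            ring
          · rw [if_neg hi, if_neg (fun h => hi h.symm)]
            ring
        rw [h4]
        exact h3
      have h5 := h2.div_const (n : ℝ)
      have h6 : (fun i => (∑ j ∈ range n, (if N j s0 = i then (1 : ℝ) else 0) * Q j) / (n : ℝ) * ϑ ^ i) =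
          fun i => (∑ j ∈ range n,
          (if N j s0 = i then (1 : ℝ) else 0) * Q j * ϑ ^ i) / (n : ℝ) := by
        funext i
        rw [div_mul_eq_mul_div, Finset.sum_mul]
      change HasSum (fun i => (∑ j ∈ range n, (if N j s0 = i then (1 : ℝ) else 0) * Q j) / (n : ℝ) * ϑ ^ i) _
      rw [h6]
      exact h5
    · -- the limit of the generating function
      have h2 := ih (Function.update e s0 e0) k
      have e1 : ∀ j, ∏ s, fc (N j) D (Function.update e s0 e0) k s = th e0 ^ (N j s0) * Q j := by
        intro j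
        rw [← Finset.mul_prod_erase univ _ (mem_univ s0)]
        congr 1
        · unfold fc
          rw [if_neg hs0, Function.update_self]
        · refine Finset.prod_congr rfl fun s hs => ?_
          have hss : s ≠ s0 := (mem_erase.1 hs).1
          unfold fc
          rw [Function.update_of_ne hss]
      have e2 : ∏ s, lc lam D (Function.update e s0 e0) k s =
          μ * Real.exp (-(lam s0 * (1 - th e0))) := by
        rw [← Finset.mul_prod_erase univ _ (mem_univ s0), hμ]
        have e3 : lc lam D (Function.update e s0 e0) k s0 = Real.exp (-(lam s0 * (1 - th e0))) := by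
          unfold lc
          rw [if_neg hs0, Function.update_self]
        have e4 : ∏ s ∈ univ.erase s0, lc lam D (Function.update e s0 e0) k s =
            ∏ s ∈ univ.erase s0, lc lam D e k s := by
          refine Finset.prod_congr rfl fun s hs => ?_
          have hss : s ≠ s0 := (mem_erase.1 hs).1
          unfold lc
          rw [Function.update_of_ne hss]
        rw [e3, e4]
        ring
      rw [e2] at h2
      exact h2.congr e1

/-- the frequencies -/
theorem freq {R : ℕ} {N : ℕ → Fin R → ℕ} {lam : Fin R → ℝ} (hlam : ∀ s, 0 ≤ lam s)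
    (h : ∀ e : Fin R → ℕ, Ces (fun j => ∏ s, th (e s) ^ N j s)
      (Real.exp (-(∑ s, (1 - th (e s)) * lam s)))) (k : Fin R → ℕ) :
    Ces (fun j => if ∀ s, N j s = k s then 1 else 0)
      (∏ s, (Real.exp (-lam s) * lam s ^ k s / (k s).factorial)) := by
  classical
  have h1 := mixed hlam h univ k k
  have e1 : ∏ s, lc lam univ k k s = ∏ s, (Real.exp (-lam s) * lam s ^ k s / (k s).factorial) := by
    unfold lc
    simp only [mem_univ, if_true]
  rw [e1] at h1
  refine h1.congr fun j => ?_
  unfold fc
  simp only [mem_univ, if_true]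
  by_cases h : ∀ s, N j s = k s
  · rw [if_pos h]
    exact Finset.prod_eq_one fun s _ => by rw [if_pos (h s)]
  · rw [if_neg h]
    push Not at h
    obtain ⟨s, hs⟩ := h
    exact Finset.prod_eq_zero (mem_univ s) (by rw [if_neg hs])

end Run7.h854.PQ
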