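import Mathlib
import Pool.Agent.Run7.h854.PQ.Grid
import Pool.Agent.Run7.h854.PQ.Inv

set_option autoImplicit false

/-!
# All sliding windows, for almost every amplitude
-/

namespace Run7.h854.PQ

open Finset Filter Topology MeasureTheory
open Pool.Agent.H305R2 (roughPart)
open Pool.Agent.N176.OW (cell kap S_FM)
open Pool.Agent.N176.SH
open Pool.Agent.N176.GP (NB NB_spec NB_div)
open Run7.h854.PO

/-- the number of exponents of `β` in `S` between the times `x` and `y` -/
noncomputable def NN (c : ℕ → ℤ) (b : ℕ) (S : Set ℕ) (β x y : ℝ) : ℕ :=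
  (good c b β (win (kap b) S x y)).card

lemma mem_good {c : ℕ → ℤ} {b : ℕ} {β : ℝ} {T : Finset ℕ} {p : ℕ} :
    p ∈ good c b β T ↔ p ∈ T ∧ (roughPart p (sh c p (NB b β p))).Prime := by
  unfold good
  rw [mem_filter]

/-- comparison of two windows -/
lemma NN_eq {c : ℕ → ℤ} {b : ℕ} {S : Set ℕ} (hκ : 0 < kap b) (hS : Tendsto (V S) atTop atTop)
    {β x y x' y' u v : ℝ} (h1 : x' ≤ x) (h2 : x ≤ u) (h3 : y' ≤ y) (h4 : y ≤ v)
    (h5 : NN c b S β x' u = 0) (h6 : NN c b S β y' v = 0) :
    NN c b S β x y = NN c b S β x' y' := by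
  unfold NN at *
  rw [card_eq_zero, Finset.eq_empty_iff_forall_notMem] at h5 h6
  congr 1
  ext p
  rw [mem_good, mem_good, mem_win hκ hS, mem_win hκ hS]
  constructor
  · rintro ⟨⟨h7, h8, h9⟩, h10⟩
    refine ⟨⟨h7, h1.trans_lt h8, ?_⟩, h10⟩
    by_contra h
    push Not at h
    refine h6 p ?_
    rw [mem_good, mem_win hκ hS]
    exact ⟨⟨h7, h, h9.trans h4⟩, h10⟩
  · rintro ⟨⟨h7, h8, h9⟩, h10⟩
    refine ⟨⟨h7, ?_, h9.trans h3⟩, h10⟩
    by_contra h
    push Not at h
    refine h5 p ?_
    rw [mem_good, mem_win hκ hS]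
    exact ⟨⟨h7, h8, h.trans h2⟩, h10⟩

/-- the law of the windows with end points in the mesh -/
def MeshLaw (c : ℕ → ℤ) (b : ℕ) (S : Set ℕ) (β : ℝ) : Prop :=
  ∀ D : ℕ, 1 ≤ D → ∀ (R : ℕ) (a a' : Fin R → ℕ), (∀ s, a s ≤ a' s) →
    (∀ s s', s ≠ s' → a' s ≤ a s' ∨ a' s' ≤ a s) → ∀ k : Fin R → ℕ,
    Ces (fun i => if ∀ s, NN c b S β (((i : ℝ) + a s) / D) (((i : ℝ) + a' s) / D) = k s then 1 else 0)
      (∏ s, (Real.exp (-(((a' s : ℝ) - a s) / D)) * (((a' s : ℝ) - a s) / D) ^ k s / (k s).factorial))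

theorem mesh_law (hTU : S_TU) (hRB : S_RB) (hFM : S_FM) {b A : ℕ} {c : ℕ → ℤ} (hOk : Ok b A c)
    {S : Set ℕ} (hS : IsThin S) : ∀ᵐ β : ℝ, 0 < β → MeshLaw c b S β := by
  classical
  -- the generating functions for all the data
  have h1 : ∀ (D M R : ℕ) (a a' : Fin R → ℕ) (r : ℕ) (e : Fin R → ℕ), ∀ᵐ β : ℝ,
      1 ≤ D → 1 ≤ M → (∀ s, a s ≤ a' s) → (∀ s, a' s ≤ M) →
      (∀ s s', s ≠ s' → a' s ≤ a s' ∨ a' s' ≤ a s) → 0 < β →
      Ces (fun j : ℕ => ∏ s, th (e s) ^ NN c b S β
        (((r + 2 * M * j : ℕ) + (a s : ℝ)) / D) (((r + 2 * M * j : ℕ) + (a' s : ℝ)) / D))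
        (Real.exp (-(∑ s, (1 - th (e s)) * (((a' s : ℝ) - a s) / D)))) := by
    intro D M R a a' r e
    by_cases hD : 1 ≤ D
    · by_cases hM : 1 ≤ M
      · by_cases ha : ∀ s, a s ≤ a' s
        · by_cases haM : ∀ s, a' s ≤ M
          · by_cases hd : ∀ s s', s ≠ s' → a' s ≤ a s' ∨ a' s' ≤ a s
            · have hD0 : (0 : ℝ) < D := by exact_mod_cast hD
              have hM0 : (0 : ℝ) < M := by exact_mod_cast hM
              have h2 := grid_pgf hTU hRB hFM hOk hS (α := fun s => (a s : ℝ) / D)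
                (α' := fun s => (a' s : ℝ) / D) (l := (M : ℝ) / D) (l' := 2 * M / D)
                (x0 := (r : ℝ) / D) (fun s => ⟨by positivity,
                  div_le_div_of_nonneg_right (by exact_mod_cast ha s) hD0.le,
                  div_le_div_of_nonneg_right (by exact_mod_cast haM s) hD0.le⟩)
                (fun s s' hss => by
                  rcases hd s s' hss with h | h
                  · exact Or.inl (div_le_div_of_nonneg_right (by exact_mod_cast h) hD0.le)
                  · exact Or.inr (div_le_div_of_nonneg_right (by exact_mod_cast h) hD0.le))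
                (by positivity) (by
                  rw [div_lt_div_iff_of_pos_right hD0]
                  linarith) (by positivity) (fun s => th (e s))
                (fun s => ⟨(th_pos _).le, th_le _⟩)
              filter_upwards [h2] with β hβ _ _ _ _ _ hβ0
              have h3 := hβ hβ0
              have e1 : ∑ s, (1 - th (e s)) * ((a' s : ℝ) / D - (a s : ℝ) / D) =
                  ∑ s, (1 - th (e s)) * (((a' s : ℝ) - a s) / D) :=
                Finset.sum_congr rfl fun s _ => by rw [sub_div]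
              rw [e1] at h3
              refine h3.congr fun j => Finset.prod_congr rfl fun s _ => ?_
              unfold NN
              have e2 : (r : ℝ) / D + j * (2 * M / D) + (a s : ℝ) / D =
                  (((r + 2 * M * j : ℕ) : ℝ) + (a s : ℝ)) / D := by
                push_cast
                field_simp
              have e3 : (r : ℝ) / D + j * (2 * M / D) + (a' s : ℝ) / D =
                  (((r + 2 * M * j : ℕ) : ℝ) + (a' s : ℝ)) / D := by
                push_cast
                field_simp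
              rw [e2, e3]
            · exact Eventually.of_forall fun β _ _ _ _ h => absurd h hd
          · exact Eventually.of_forall fun β _ _ _ h => absurd h haM
        · exact Eventually.of_forall fun β _ _ h => absurd h ha
      · exact Eventually.of_forall fun β _ h => absurd h hM
    · exact Eventually.of_forall fun β h => absurd h hD
  have h2 : ∀ᵐ β : ℝ, ∀ (D M R : ℕ) (a a' : Fin R → ℕ) (r : ℕ) (e : Fin R → ℕ),
      1 ≤ D → 1 ≤ M → (∀ s, a s ≤ a' s) → (∀ s, a' s ≤ M) →
      (∀ s s', s ≠ s' → a' s ≤ a s' ∨ a' s' ≤ a s) → 0 < β →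
      Ces (fun j : ℕ => ∏ s, th (e s) ^ NN c b S β
        (((r + 2 * M * j : ℕ) + (a s : ℝ)) / D) (((r + 2 * M * j : ℕ) + (a' s : ℝ)) / D))
        (Real.exp (-(∑ s, (1 - th (e s)) * (((a' s : ℝ) - a s) / D)))) := by
    rw [ae_all_iff]; intro D
    rw [ae_all_iff]; intro M
    rw [ae_all_iff]; intro R
    rw [ae_all_iff]; intro a
    rw [ae_all_iff]; intro a'
    rw [ae_all_iff]; intro r
    rw [ae_all_iff]; intro e
    exact h1 D M R a a' r e
  filter_upwards [h2] with β hβ hβ0 D hD R a a' ha hd k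
  have hD0 : (0 : ℝ) < D := by exact_mod_cast hD
  set M := 1 + ∑ s, a' s with hM
  have haM : ∀ s, a' s ≤ M := fun s => by
    have := Finset.single_le_sum (f := a') (fun _ _ => Nat.zero_le _) (mem_univ s)
    omega
  refine ces_mod (M := 2 * M) (fun j => by split_ifs <;> norm_num) (by omega) fun r _ => ?_
  exact freq (N := fun j s => NN c b S β
    (((r + 2 * M * j : ℕ) + (a s : ℝ)) / D) (((r + 2 * M * j : ℕ) + (a' s : ℝ)) / D))
    (lam := fun s => ((a' s : ℝ) - a s) / D) (fun s => by
      have : (a s : ℝ) ≤ a' s := by exact_mod_cast ha s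
      exact div_nonneg (by linarith) hD0.le)
    (fun e => hβ D M R a a' r e hD (by omega) ha haM hd hβ0) k

end Run7.h854.PQ
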