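import Mathlib
import Pool.Agent.Run7.h854.PQ.Slide

set_option autoImplicit false

/-!
# The statistics of all sliding windows
-/

namespace Run7.h854.PQ

open Finset Filter Topology MeasureTheory
open Pool.Agent.N176.OW (kap)
open Run7.h854.PO

lemma ces_real {h : ℕ → ℝ} {l : ℝ} (hc : Ces h l) {D : ℕ} (hD : 1 ≤ D) (t : ℕ) :
    Tendsto (fun X : ℝ => (∑ i ∈ range (⌊(D : ℝ) * X⌋₊ + t), h i) / D / X) atTop (𝓝 l) := by
  have hD0 : (0 : ℝ) < D := by exact_mod_cast hD
  have h1 : Tendsto (fun X : ℝ => ⌊(D : ℝ) * X⌋₊ + t) atTop atTop :=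
    (tendsto_add_atTop_nat t).comp
      (tendsto_nat_floor_atTop.comp (tendsto_id.const_mul_atTop hD0))
  have h2 := Filter.Tendsto.comp hc h1
  have h3 : Tendsto (fun X : ℝ => ((⌊(D : ℝ) * X⌋₊ + t : ℕ) : ℝ) / X) atTop (𝓝 ((D : ℝ) + 0)) := by
    have h4 := (tendsto_nat_floor_mul_div_atTop (R := ℝ) hD0.le).add
      ((tendsto_const_nhds (x := (t : ℝ))).div_atTop tendsto_id)
    refine h4.congr fun X => ?_
    push_cast
    rw [add_div]
    rfl
  rw [add_zero] at h3
  have h4 := (h2.mul h3).div_const (D : ℝ)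
  rw [mul_div_assoc, div_self hD0.ne', mul_one] at h4
  refine h4.congr' ?_
  filter_upwards [h1.eventually_ge_atTop 1, eventually_gt_atTop 0] with X hX hX0
  simp only [Function.comp]
  have h5 : (0 : ℝ) < ((⌊(D : ℝ) * X⌋₊ + t : ℕ) : ℝ) := by exact_mod_cast hX
  field_simp

theorem sliding {c : ℕ → ℤ} {b : ℕ} {S : Set ℕ} (hκ : 0 < kap b) (hS : Tendsto (V S) atTop atTop)
    {β : ℝ} (hM : MeshLaw c b S β) {R : ℕ} (α α' : Fin R → ℝ)
    (h0 : ∀ s, 0 ≤ α s ∧ α s ≤ α' s) (hd : ∀ s s', s ≠ s' → α' s ≤ α s' ∨ α' s' ≤ α s)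
    (k : Fin R → ℕ) :
    Tendsto (fun X : ℝ => (volume {y : ℝ | 0 < y ∧ y ≤ X ∧
      ∀ s, NN c b S β (y + α s) (y + α' s) = k s}).toReal / X) atTop
      (𝓝 (∏ s, (Real.exp (-(α' s - α s)) * (α' s - α s) ^ k s / (k s).factorial))) := by
  classical
  set pp := ∏ s, (Real.exp (-(α' s - α s)) * (α' s - α s) ^ k s / ((k s).factorial : ℝ)) with hpp
  -- the mesh
  have hpD : Tendsto (fun D : ℕ => ∏ s, (Real.exp (-(((⌊α' s * (D : ℝ)⌋₊ : ℝ) - ⌊α s * (D : ℝ)⌋₊) / D)) *
      (((⌊α' s * (D : ℝ)⌋₊ : ℝ) - ⌊α s * (D : ℝ)⌋₊) / D) ^ k s / ((k s).factorial : ℝ))) atTop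
      (𝓝 pp) := by
    rw [hpp]
    refine tendsto_finsetProd _ fun s _ => ?_
    have h1 : Tendsto (fun D : ℕ => (((⌊α' s * (D : ℝ)⌋₊ : ℝ) - ⌊α s * (D : ℝ)⌋₊) / D)) atTop
        (𝓝 (α' s - α s)) := by
      have h2 := (tendsto_nat_floor_mul_div_atTop (R := ℝ) ((h0 s).1.trans (h0 s).2)).comp
        tendsto_natCast_atTop_atTop
      have h3 := (tendsto_nat_floor_mul_div_atTop (R := ℝ) (h0 s).1).comp
        tendsto_natCast_atTop_atTop
      refine (h2.sub h3).congr fun D => ?_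
      simp only [Function.comp]
      rw [sub_div]
    exact (((Real.continuous_exp.tendsto _).comp h1.neg).mul (h1.pow (k s))).div_const _
  have hGD : Tendsto (fun D : ℕ => ∑ _s : Fin R, ((1 - Real.exp (-(2 / (D : ℝ)))) +
      (1 - Real.exp (-(2 / (D : ℝ)))))) atTop (𝓝 0) := by
    have h1 : Tendsto (fun D : ℕ => -(2 / (D : ℝ))) atTop (𝓝 (-0)) :=
      (tendsto_const_div_atTop_nhds_zero_nat 2).neg
    rw [neg_zero] at h1
    have h2 := (tendsto_const_nhds (x := (1 : ℝ))).sub ((Real.continuous_exp.tendsto _).comp h1)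
    rw [Real.exp_zero, sub_self] at h2
    have h3 := tendsto_finsetSum (univ : Finset (Fin R)) fun s _ => h2.add h2
    rw [add_zero, Finset.sum_const_zero] at h3
    exact h3
  rw [Metric.tendsto_nhds]
  intro ε hε
  obtain ⟨D, ⟨hD1, hD2⟩, hD⟩ := (((Metric.tendsto_nhds.1 hpD) (ε / 3) (by positivity)).and
    (hGD.eventually_lt_const (show 0 < ε / 3 by positivity))).and (eventually_ge_atTop 1) |>.exists
  have hD0 : (0 : ℝ) < D := by exact_mod_cast hD
  set a : Fin R → ℕ := fun s => ⌊α s * (D : ℝ)⌋₊ with ha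
  set a' : Fin R → ℕ := fun s => ⌊α' s * (D : ℝ)⌋₊ with ha'
  have haa : ∀ s, a s ≤ a' s := fun s =>
    Nat.floor_mono (mul_le_mul_of_nonneg_right (h0 s).2 hD0.le)
  have hdd : ∀ s s', s ≠ s' → a' s ≤ a s' ∨ a' s' ≤ a s := by
    intro s s' hss
    rcases hd s s' hss with h | h
    · exact Or.inl (Nat.floor_mono (mul_le_mul_of_nonneg_right h hD0.le))
    · exact Or.inr (Nat.floor_mono (mul_le_mul_of_nonneg_right h hD0.le))
  set f : ℕ → ℝ := fun i =>
    if ∀ s, NN c b S β (((i : ℝ) + a s) / D) (((i : ℝ) + a' s) / D) = k s then 1 else 0 with hf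
  set u : ℕ → ℕ → ℝ := fun e i =>
    1 - (if NN c b S β (((i : ℝ) + e) / D) (((i : ℝ) + ((e + 2 : ℕ) : ℝ)) / D) = 0 then 1 else 0) with hu
  set g : ℕ → ℝ := fun i => ∑ s, (u (a s) i + u (a' s) i) with hg
  have hu0 : ∀ e i, 0 ≤ u e i := fun e i => by
    rw [hu]
    simp only
    split_ifs <;> norm_num
  have hf01 : ∀ i, 0 ≤ f i ∧ f i ≤ 1 := fun i => by
    rw [hf]
    simp only
    split_ifs <;> norm_num
  have hg0 : ∀ i, 0 ≤ g i := fun i => Finset.sum_nonneg fun s _ => add_nonneg (hu0 _ _) (hu0 _ _)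
  set pD := ∏ s, (Real.exp (-(((a' s : ℝ) - a s) / D)) * (((a' s : ℝ) - a s) / D) ^ k s /
    ((k s).factorial : ℝ)) with hpDdef
  have hcf : Ces f pD := hM D hD R a a' haa hdd k
  have hcu : ∀ e, Ces (u e) (1 - Real.exp (-(2 / (D : ℝ)))) := by
    intro e
    have h1 := hM D hD 1 (fun _ => e) (fun _ => e + 2) (fun _ => by omega)
      (fun s s' hss => absurd (Subsingleton.elim s s') hss) (fun _ => 0)
    have h2 : Ces (fun _ => (1 : ℝ)) 1 := ces_of_tendsto tendsto_const_nhds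
    have h3 := h2.sub h1
    have e1 : (∏ _s : Fin 1, (Real.exp (-((((e + 2 : ℕ) : ℝ) - (e : ℝ)) / D)) *
        ((((e + 2 : ℕ) : ℝ) - (e : ℝ)) / D) ^ 0 / ((0 : ℕ).factorial : ℝ))) =
        Real.exp (-(2 / (D : ℝ))) := by
      rw [Fin.prod_univ_one]
      push_cast
      rw [pow_zero, mul_one, Nat.factorial_zero, Nat.cast_one, div_one]
      congr 3
      ring
    rw [e1] at h3
    refine h3.congr fun i => ?_
    rw [hu]
    simp only
    congr 1
    by_cases hc : NN c b S β (((i : ℝ) + e) / D) (((i : ℝ) + ((e + 2 : ℕ) : ℝ)) / D) = 0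
    · rw [if_pos hc, if_pos fun _ => hc]
    · rw [if_neg hc, if_neg fun h => hc (h 0)]
  set GD := ∑ _s : Fin R, ((1 - Real.exp (-(2 / (D : ℝ)))) + (1 - Real.exp (-(2 / (D : ℝ))))) with hGDdef
  have hcg : Ces g GD := Ces.sum _ fun s _ => (hcu (a s)).add (hcu (a' s))
  -- small `g` means no exponents near the end points
  have hsmall : ∀ i, g i < 1 → ∀ s,
      NN c b S β (((i : ℝ) + a s) / D) (((i : ℝ) + ((a s + 2 : ℕ) : ℝ)) / D) = 0 ∧
      NN c b S β (((i : ℝ) + a' s) / D) (((i : ℝ) + ((a' s + 2 : ℕ) : ℝ)) / D) = 0 := by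
    intro i hi s
    have h1 : u (a s) i + u (a' s) i ≤ g i :=
      Finset.single_le_sum (f := fun s => u (a s) i + u (a' s) i)
        (fun s _ => add_nonneg (hu0 _ _) (hu0 _ _)) (mem_univ s)
    have h2 := hu0 (a s) i
    have h3 := hu0 (a' s) i
    constructor
    · by_contra h
      have h4 : u (a s) i = 1 := by
        rw [hu]
        simp only
        rw [if_neg h, sub_zero]
      linarith
    · by_contra h
      have h4 : u (a' s) i = 1 := by
        rw [hu]
        simp only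
        rw [if_neg h, sub_zero]
      linarith
  have hcomp : ∀ i, g i < 1 → ∀ y : ℝ, (i : ℝ) / D < y → y ≤ ((i : ℝ) + 1) / D → ∀ s,
      NN c b S β (y + α s) (y + α' s) = NN c b S β (((i : ℝ) + a s) / D) (((i : ℝ) + a' s) / D) := by
    intro i hi y hy1 hy2 s
    obtain ⟨h1, h2⟩ := hsmall i hi s
    rw [div_lt_iff₀ hD0] at hy1
    rw [le_div_iff₀ hD0] at hy2
    have h3 : (a s : ℝ) ≤ α s * D := Nat.floor_le (mul_nonneg (h0 s).1 hD0.le)
    have h4 : α s * D < a s + 1 := Nat.lt_floor_add_one _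
    have h5 : (a' s : ℝ) ≤ α' s * D := Nat.floor_le (mul_nonneg ((h0 s).1.trans (h0 s).2) hD0.le)
    have h6 : α' s * D < a' s + 1 := Nat.lt_floor_add_one _
    refine NN_eq hκ hS ?_ ?_ ?_ ?_ h1 h2
    · rw [div_le_iff₀ hD0]; linarith
    · rw [le_div_iff₀ hD0]; push_cast; linarith
    · rw [div_le_iff₀ hD0]; linarith
    · rw [le_div_iff₀ hD0]; push_cast; linarith
  set E : ℝ → Set ℝ := fun X => {y : ℝ | 0 < y ∧ y ≤ X ∧
      ∀ s, NN c b S β (y + α s) (y + α' s) = k s} with hE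
  have hEfin : ∀ X, volume (E X) ≠ ⊤ := fun X => by
    refine ne_top_of_le_ne_top ?_ (measure_mono (show E X ⊆ Set.Ioc 0 X from fun y h => ⟨h.1, h.2.1⟩))
    rw [Real.volume_Ioc]
    exact ENNReal.ofReal_ne_top
  have hIoc : ∀ i : ℕ, volume (Set.Ioc ((i : ℝ) / D) (((i : ℝ) + 1) / D)) = ENNReal.ofReal (1 / D) := by
    intro i
    rw [Real.volume_Ioc]
    congr 1
    field_simp
    ring
  -- the upper bound
  have hupper : ∀ X : ℝ, 0 < X → (volume (E X)).toReal ≤
      (∑ i ∈ range (⌊(D : ℝ) * X⌋₊ + 1), (f i + g i)) / D := by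
    intro X hX
    set F := (range (⌊(D : ℝ) * X⌋₊ + 1)).filter (fun i => 1 ≤ f i + g i) with hF
    have hsub : E X ⊆ ⋃ i ∈ F, Set.Ioc ((i : ℝ) / D) (((i : ℝ) + 1) / D) := by
      rintro y ⟨hy0, hyX, hy⟩
      have hyD : 0 < y * D := mul_pos hy0 hD0
      have hc1 : 0 < ⌈y * D⌉₊ := Nat.ceil_pos.2 hyD
      obtain ⟨i, hi⟩ : ∃ i, ⌈y * D⌉₊ = i + 1 := ⟨⌈y * D⌉₊ - 1, by omega⟩
      have h1 : y * D ≤ (i : ℝ) + 1 := by
        have := Nat.le_ceil (y * D)
        rw [hi] at this
        push_cast at this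
        exact this
      have h2 : (i : ℝ) < y * D := by
        have := Nat.lt_ceil.1 (show i < ⌈y * D⌉₊ by omega)
        exact this
      rw [Set.mem_iUnion₂]
      have h3 : (i : ℝ) / D < y := by rw [div_lt_iff₀ hD0]; exact h2
      have h4 : y ≤ ((i : ℝ) + 1) / D := by rw [le_div_iff₀ hD0]; exact h1
      refine ⟨i, ?_, h3, h4⟩
      rw [hF, mem_filter, mem_range]
      constructor
      · have h5 : (i : ℝ) ≤ (D : ℝ) * X := by nlinarith
        have h6 := Nat.le_floor h5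
        omega
      · by_cases hgi : g i < 1
        · have h5 : f i = 1 := by
            rw [hf]
            simp only
            rw [if_pos]
            intro s
            rw [← hcomp i hgi y h3 h4 s]
            exact hy s
          have := hg0 i
          linarith
        · push Not at hgi
          have := (hf01 i).1
          linarith
    have h1 : volume (E X) ≤ ∑ i ∈ F, ENNReal.ofReal (1 / D) := by
      refine (measure_mono hsub).trans ((measure_biUnion_finset_le _ _).trans ?_)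
      exact Finset.sum_le_sum fun i _ => (hIoc i).le
    rw [Finset.sum_const, nsmul_eq_mul] at h1
    have h2 : (volume (E X)).toReal ≤ (F.card : ℝ) * (1 / D) := by
      have h3 := ENNReal.toReal_mono (by
        exact ENNReal.mul_ne_top (ENNReal.natCast_ne_top _) ENNReal.ofReal_ne_top) h1
      rw [ENNReal.toReal_mul, ENNReal.toReal_natCast, ENNReal.toReal_ofReal (by positivity)] at h3
      exact h3
    refine h2.trans ?_
    rw [mul_one_div]
    refine div_le_div_of_nonneg_right ?_ hD0.le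
    calc (F.card : ℝ) = ∑ i ∈ F, (1 : ℝ) := by simp
      _ ≤ ∑ i ∈ F, (f i + g i) := Finset.sum_le_sum fun i hi => (mem_filter.1 hi).2
      _ ≤ _ := Finset.sum_le_sum_of_subset_of_nonneg (filter_subset _ _) fun i _ _ =>
          add_nonneg (hf01 i).1 (hg0 i)
  -- the lower bound
  have hlower : ∀ X : ℝ, 0 < X →
      (∑ i ∈ range (⌊(D : ℝ) * X⌋₊ + 0), (f i - g i)) / D ≤ (volume (E X)).toReal := by
    intro X hX
    set F := (range (⌊(D : ℝ) * X⌋₊ + 0)).filter (fun i => 0 < f i - g i) with hF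
    have hsub : (⋃ i ∈ F, Set.Ioc ((i : ℝ) / D) (((i : ℝ) + 1) / D)) ⊆ E X := by
      intro y hy
      rw [Set.mem_iUnion₂] at hy
      obtain ⟨i, hi, h1, h2⟩ := hy
      rw [hF, mem_filter, mem_range] at hi
      obtain ⟨h3, h4⟩ := hi
      have hgi : g i < 1 := by
        have := (hf01 i).2
        linarith
      refine ⟨lt_of_le_of_lt (by positivity) h1, h2.trans ?_, fun s => ?_⟩
      · rw [div_le_iff₀ hD0]
        have h5 : ((i + 1 : ℕ) : ℝ) ≤ ((⌊(D : ℝ) * X⌋₊ : ℕ) : ℝ) := by exact_mod_cast (by omega)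
        have h6 : ((⌊(D : ℝ) * X⌋₊ : ℕ) : ℝ) ≤ (D : ℝ) * X := Nat.floor_le (by positivity)
        push_cast at h5
        linarith
      · rw [hcomp i hgi y h1 h2 s]
        by_contra hne
        have h5 : f i = 0 := by
          rw [hf]
          simp only
          rw [if_neg fun h => hne (h s)]
        have := hg0 i
        linarith
    have h1 : ∑ i ∈ F, ENNReal.ofReal (1 / D) ≤ volume (E X) := by
      have h2 : volume (⋃ i ∈ F, Set.Ioc ((i : ℝ) / D) (((i : ℝ) + 1) / D)) =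
          ∑ i ∈ F, volume (Set.Ioc ((i : ℝ) / D) (((i : ℝ) + 1) / D)) := by
        refine measure_biUnion_finset ?_ fun i _ => measurableSet_Ioc
        intro i _ j _ hij
        rw [Function.onFun, Set.disjoint_left]
        rintro y ⟨h3, h4⟩ ⟨h5, h6⟩
        rcases lt_or_gt_of_ne hij with h | h
        · have h7 : ((i : ℝ) + 1) / D ≤ (j : ℝ) / D := by
            refine div_le_div_of_nonneg_right ?_ hD0.le
            exact_mod_cast h
          linarith
        · have h7 : ((j : ℝ) + 1) / D ≤ (i : ℝ) / D := by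
            refine div_le_div_of_nonneg_right ?_ hD0.le
            exact_mod_cast h
          linarith
      rw [Finset.sum_congr rfl fun i _ => hIoc i] at h2
      rw [← h2]
      exact measure_mono hsub
    rw [Finset.sum_const, nsmul_eq_mul] at h1
    have h2 : (F.card : ℝ) * (1 / D) ≤ (volume (E X)).toReal := by
      have h3 := ENNReal.toReal_mono (hEfin X) h1
      rw [ENNReal.toReal_mul, ENNReal.toReal_natCast, ENNReal.toReal_ofReal (by positivity)] at h3
      exact h3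
    refine le_trans ?_ h2
    rw [mul_one_div]
    refine div_le_div_of_nonneg_right ?_ hD0.le
    calc ∑ i ∈ range (⌊(D : ℝ) * X⌋₊ + 0), (f i - g i) ≤ ∑ i ∈ F, (f i - g i) := by
          rw [hF, Finset.sum_filter]
          refine Finset.sum_le_sum fun i _ => ?_
          split_ifs with h
          · exact le_rfl
          · exact not_lt.1 h
      _ ≤ ∑ i ∈ F, (1 : ℝ) := Finset.sum_le_sum fun i _ => by
          have := (hf01 i).2
          have := hg0 i
          linarith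
      _ = F.card := by simp
  have hL1 := (Metric.tendsto_nhds.1 (ces_real (hcf.add hcg) hD 1)) (ε / 3) (by positivity)
  have hL2 := (Metric.tendsto_nhds.1 (ces_real (hcf.sub hcg) hD 0)) (ε / 3) (by positivity)
  filter_upwards [hL1, hL2, eventually_gt_atTop 0] with X hX1 hX2 hX0
  have h1 := hupper X hX0
  have h2 := hlower X hX0
  rw [Real.dist_eq, abs_lt] at hX1 hX2 hD1
  rw [Real.dist_eq, abs_lt]
  have h3 : (volume (E X)).toReal / X ≤ (∑ i ∈ range (⌊(D : ℝ) * X⌋₊ + 1), (f i + g i)) / D / X :=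
    div_le_div_of_nonneg_right h1 hX0.le
  have h4 : (∑ i ∈ range (⌊(D : ℝ) * X⌋₊ + 0), (f i - g i)) / D / X ≤ (volume (E X)).toReal / X :=
    div_le_div_of_nonneg_right h2 hX0.le
  constructor
  · linarith [hX2.1, hD1.1, hD1.2]
  · linarith [hX1.2, hD1.1, hD1.2]

end Run7.h854.PQ
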