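import Mathlib
import Pool.Agent.Run7.h854.PQ.Slide2
import Pool.Agent.Run7.h854.PO.All

set_option autoImplicit false

/-!
# The statistics of the exponents in a thin set of primes, in the three cases
-/

namespace Run7.h854.PQ

open Finset Filter Topology MeasureTheory
open Pool.Agent.H305R2 (roughPart)
open Pool.Agent.N176.OW (kap S_FM)
open Pool.Agent.N176.SH
open Pool.Agent.N176.GP (NB)
open Run7.h854.PO

/-- the weight, as a sum of values of an indicator function -/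
lemma V_eq (S : Set ℕ) (n : ℕ) :
    V S n = ∑ p ∈ range (n + 1), S.indicator (fun p : ℕ => Real.log p / (p : ℝ)) p := by
  classical
  unfold V
  rw [Finset.sum_filter]
  refine Finset.sum_congr rfl fun p _ => ?_
  rw [Set.indicator_apply]

/-- the number of exponents in a window -/
lemma NN_ncard {c : ℕ → ℤ} {b : ℕ} {S : Set ℕ} (hκ : 0 < kap b) (hS : Tendsto (V S) atTop atTop)
    {W : ℝ → ℕ → ℕ} {β : ℝ} (hW : ∀ p ∈ S, W β p = roughPart p (sh c p (NB b β p))) (x y : ℝ) :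
    {p : ℕ | p ∈ S ∧ x < kap b * V S p ∧ kap b * V S p ≤ y ∧ (W β p).Prime}.ncard =
      NN c b S β x y := by
  unfold NN
  rw [← Set.ncard_coe_finset]
  congr 1
  ext p
  rw [Set.mem_ofPred_eq, mem_coe, mem_good, mem_win hκ hS]
  constructor
  · rintro ⟨h1, h2, h3, h4⟩
    rw [hW p h1] at h4
    exact ⟨⟨h1, h2, h3⟩, h4⟩
  · rintro ⟨⟨h1, h2, h3⟩, h4⟩
    rw [← hW p h1] at h4
    exact ⟨h1, h2, h3, h4⟩

theorem stat {b A : ℕ} {c : ℕ → ℤ} (hOk : Ok b A c) {S : Set ℕ} (hS : IsThin S) (W : ℝ → ℕ → ℕ)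
    (hW : ∀ β : ℝ, 0 < β → ∀ p ∈ S, W β p = roughPart p (sh c p (NB b β p))) :
    ∀ᵐ β : ℝ, 0 < β → ∀ (r : ℕ) (α α' : Fin r → ℝ) (k : Fin r → ℕ),
      (∀ s, 0 ≤ α s ∧ α s ≤ α' s) → (∀ s s', s ≠ s' → α' s ≤ α s' ∨ α' s' ≤ α s) →
      Tendsto (fun X : ℝ => (volume {y : ℝ | 0 < y ∧ y ≤ X ∧ ∀ s,
        {p : ℕ | p ∈ S ∧ y + α s < kap b * V S p ∧ kap b * V S p ≤ y + α' s ∧
          (W β p).Prime}.ncard = k s}).toReal / X) atTop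
        (𝓝 (∏ s, (Real.exp (-(α' s - α s)) * (α' s - α s) ^ k s / (k s).factorial))) := by
  have hb := hOk.hb
  have hκ : 0 < kap b := div_pos (Real.exp_pos _) (Real.log_pos (by exact_mod_cast hb))
  filter_upwards [mesh_law tu' rb' fm' hOk hS] with β hβ hβ0 r α α' k h0 hd
  have h1 := sliding hκ hS.inf (hβ hβ0) α α' h0 hd k
  simp only [NN_ncard hκ hS.inf (hW β hβ0)]
  exact h1

/-- no shift -/
theorem stat_zero {b : ℕ} (hb : 2 ≤ b) {S : Set ℕ} (hS : IsThin S) :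
    ∀ᵐ β : ℝ, 0 < β → ∀ (r : ℕ) (α α' : Fin r → ℝ) (k : Fin r → ℕ),
      (∀ s, 0 ≤ α s ∧ α s ≤ α' s) → (∀ s s', s ≠ s' → α' s ≤ α s' ∨ α' s' ≤ α s) →
      Tendsto (fun X : ℝ => (volume {y : ℝ | 0 < y ∧ y ≤ X ∧ ∀ s,
        {p : ℕ | p ∈ S ∧ y + α s < kap b * V S p ∧ kap b * V S p ≤ y + α' s ∧
          (roughPart p (⌈β * (b : ℝ) ^ p⌉₊ - 1)).Prime}.ncard = k s}).toReal / X) atTop
        (𝓝 (∏ s, (Real.exp (-(α' s - α s)) * (α' s - α s) ^ k s / (k s).factorial))) :=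
  stat (ok_zero hb) hS (fun β p => roughPart p (⌈β * (b : ℝ) ^ p⌉₊ - 1)) fun β _ p _ => by
    unfold sh
    simp [NB]

/-- the shift one -/
theorem stat_one {b : ℕ} (hb : 2 ≤ b) {S : Set ℕ} (hS : IsThin S) :
    ∀ᵐ β : ℝ, 0 < β → ∀ (r : ℕ) (α α' : Fin r → ℝ) (k : Fin r → ℕ),
      (∀ s, 0 ≤ α s ∧ α s ≤ α' s) → (∀ s s', s ≠ s' → α' s ≤ α s' ∨ α' s' ≤ α s) →
      Tendsto (fun X : ℝ => (volume {y : ℝ | 0 < y ∧ y ≤ X ∧ ∀ s,
        {p : ℕ | p ∈ S ∧ y + α s < kap b * V S p ∧ kap b * V S p ≤ y + α' s ∧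
          (roughPart p ⌈β * (b : ℝ) ^ p⌉₊).Prime}.ncard = k s}).toReal / X) atTop
        (𝓝 (∏ s, (Real.exp (-(α' s - α s)) * (α' s - α s) ^ k s / (k s).factorial))) :=
  stat (ok_one hb) hS (fun β p => roughPart p ⌈β * (b : ℝ) ^ p⌉₊) fun β hβ p _ => by
    have h2 : sh (fun _ => 1) p (NB b β p) = ⌈β * (b : ℝ) ^ p⌉₊ := by
      have h3 : 0 < ⌈β * (b : ℝ) ^ p⌉₊ := Nat.ceil_pos.2 (by positivity)
      change (((⌈β * (b : ℝ) ^ p⌉₊ - 1 : ℕ) : ℤ) + 1).toNat = ⌈β * (b : ℝ) ^ p⌉₊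
      omega
    rw [h2]

/-- pairs `(a, b)` -/
theorem stat_pair {a : ℕ} {b : ℤ} (hb1 : 1 ≤ |b|) (hba : |b| < a) {S : Set ℕ} (hS : IsThin S)
    (hodd : ∀ p ∈ S, Odd p) :
    ∀ᵐ β : ℝ, 0 < β → ∀ (r : ℕ) (α α' : Fin r → ℝ) (k : Fin r → ℕ),
      (∀ s, 0 ≤ α s ∧ α s ≤ α' s) → (∀ s s', s ≠ s' → α' s ≤ α s' ∨ α' s' ≤ α s) →
      Tendsto (fun X : ℝ => (volume {y : ℝ | 0 < y ∧ y ≤ X ∧ ∀ s,
        {p : ℕ | p ∈ S ∧ y + α s < kap a * V S p ∧ kap a * V S p ≤ y + α' s ∧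
          (WW a b β p).Prime}.ncard = k s}).toReal / X) atTop
        (𝓝 (∏ s, (Real.exp (-(α' s - α s)) * (α' s - α s) ^ k s / (k s).factorial))) := by
  obtain ⟨A, hA⟩ := Pool.Agent.N372.SH.okp a b hb1 hba
  exact stat hA hS (fun β p => WW a b β p) fun β hβ p hp =>
    (WW_eq hA.hb hb1 hβ (Or.inl (hodd p hp))).symm

end Run7.h854.PQ
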